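import Pool.Agent.H28.RK.All

/-!
# The rates with the jets of the second kind as a property of one window

`RvK`: one rate of the jets for all errors, the lower bound also given the near jets of the second kind.
`RkP`: for a place and its orders `0, …, K`: the rates `φ j` of the vectors of the orders `j, …, K`; if
the slope is `K + 1`, also given the near jet of the order `K + 1`, and the records do not see this jet.
`VrK`: the property of a window, side information `F.T` and `F.W`. `aePG_vk`: it holds at almost every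
window, in a subclass; `her_vk`: it is hereditary.
-/

set_option autoImplicit false

namespace Pool.RK28

open Finset Real MvPolynomial MeasureTheory
open Pool.Agent.H49.Ent Pool.Agent.H32.Dense Pool.STK Pool.KA Pool.KSAT Pool.K2S Pool.PB Pool.S6C
  Pool.GEN Pool.RCD Pool.LA91 Pool.LP30 Pool.LPJ30 Pool.PKG Pool.CHT Pool.GRW Pool.RJ28
open Pool.OWN83 (TwoRelS TRelS ae_shift rel_clsS)
open Pool.AVG96 (fl fl_mem fl_mono le_fl whG gap_ae)
open Pool.TOP (TopS)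
open Pool.RV28 (SdI yG vchG der_box fin_ev sdI_T sdI_W slope_ge)

section

variable {m : ℕ} {S : PCl m} {γ : ∀ J : ℕ, Fam m J → Type}
  {y₀ : ∀ (J : ℕ) (F : Fam m J), F.Ω → γ J F} {c : ℕ → Fin m} {d : ℕ}
  {sn : ℕ → ℝ → ℝ} {G : Set ℝ} {n n' : ℕ} {k : Fin n → Fin m} {od : Fin n → ℕ}
  {kB : Fin n' → Fin m} {oB : Fin n' → ℕ} {T : Fin n → ℝ → ℝ} {TB : Fin n' → ℝ → ℝ}

/-- **The rate** `φ` of the jets given the near path at the point `g`, for all errors, the lower bound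
also given the near jets of the second kind. -/
def RvK (S : PCl m) (y₀ : ∀ (J : ℕ) (F : Fam m J), F.Ω → γ J F) (c : ℕ → Fin m) (d : ℕ)
    {n n' : ℕ} (k : Fin n → Fin m) (od : Fin n → ℕ) (kB : Fin n' → Fin m) (oB : Fin n' → ℕ)
    (sn : ℕ → ℝ → ℝ) (T : Fin n → ℝ → ℝ) (TB : Fin n' → ℝ → ℝ) (G : Set ℝ) (g φ : ℝ) : Prop :=
  ∀ e : ℝ, 0 < e → ∃ κ₀ : ℝ, 0 < κ₀ ∧ ∃ r₀ : ℝ, 0 < r₀ ∧
    ∀ r : ℝ, 0 < r → r < r₀ →
    ∀ b ∈ G, ∀ x o : ℝ, g - r ≤ b → b ≤ x → x ≤ o → o ≤ g + r →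
    ∀ (nH nV lv : ℕ → ℝ) (nB : Fin n' → ℝ), NrJ sn d T oB TB nH nV lv nB b o (e * r) κ₀ →
      RtJ S y₀ c d k od kB oB sn T TB nH nV nB b x o (φ * (o - x)) (e * r)

theorem RvK.sub {S' : PCl m} (hs : ∀ (τ : ℝ) (J : ℕ) (F : Fam m J) (A : F.Ω → Prop),
    S'.St τ J F A → S.St τ J F A) {g φ : ℝ} (h : RvK S y₀ c d k od kB oB sn T TB G g φ) :
    RvK S' y₀ c d k od kB oB sn T TB G g φ := by
  intro e he
  obtain ⟨κ₀, hκ, r₀, hr, H⟩ := h e he
  exact ⟨κ₀, hκ, r₀, hr, fun r h1 h2 b hb x o a1 a2 a3 a4 nH nV lv nB hN =>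
    (H r h1 h2 b hb x o a1 a2 a3 a4 nH nV lv nB hN).sub hs⟩

/-- A smaller room. -/
theorem nrJ_τ {nH nV lv : ℕ → ℝ} {nB : Fin n' → ℝ} {b o τ τ' κ₀ : ℝ}
    (h : NrJ sn d T oB TB nH nV lv nB b o τ κ₀) (hτ : τ' ≤ τ) :
    NrJ sn d T oB TB nH nV lv nB b o τ' κ₀ where
  nr := Pool.RV28.nrW_τ h.nr hτ
  g := fun l hl l' hl' => by linarith [h.g l hl l' hl']
  B1 := h.B1
  B2 := fun i l hl => by linarith [h.B2 i l hl]

/-- **The uniform rate given the jets of the second kind.** -/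
theorem rjG_K (hne : S.Ne)
    (hpos : ∀ (τ : ℝ) (J : ℕ) (F : Fam m J) (A : F.Ω → Prop), S.St τ J F A → 0 < Pe F.p A)
    {g Sg φ₀ : ℝ} (hη : ∀ w : ℚ, ∃ η, RNum S (fun J F => ptr F J) (vg (w : ℝ)) η)
    (hW : ChG S c d sn G) (hg : g ∈ G)
    (hat : ∀ i, ∀ b ∈ G, ∃ rk, 0 ≤ rk ∧ Att S ((range d).image c) (k i) b (T i b) rk)
    (hatB : ∀ i, ∀ b ∈ G, ∃ rk, 0 ≤ rk ∧ Att S ((range d).image c) (kB i) b (TB i b) rk)
    (hSg : 0 ≤ Sg) (hT : TgB T g Sg) (hu : RvU S y₀ c d k od sn T G g φ₀)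
    (h : RjG S y₀ c d k od kB oB sn T TB G g) : RvK S y₀ c d k od kB oB sn T TB G g φ₀ := by
  intro e he
  obtain ⟨e', he', he1, he2⟩ : ∃ e' : ℝ, 0 < e' ∧ 10 * e' ≤ e ∧ e' ≤ 1 :=
    ⟨min 1 (e / 10), lt_min one_pos (by positivity), by linarith [min_le_right 1 (e / 10)],
      min_le_left _ _⟩
  obtain ⟨φ, hφ, κ₁, hκ₁, r₁, hr₁, H1⟩ := h e' he'
  obtain ⟨κ₂, hκ₂, r₂, hr₂, H2⟩ := hu e' he'
  obtain ⟨ρ₁, hρ₁, hT⟩ := hT 1 one_pos
  have hcmp : |φ - φ₀| ≤ 4 * e' := by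
    obtain ⟨C, hC⟩ : ∃ C : ℝ, C = ((Sg + 1) + 4 * 2) * 4 ^ d + 4 := ⟨_, rfl⟩
    have hC0 : 0 < C := by
      rw [hC]
      positivity
    obtain ⟨r, hr, s1, s2, s3, s4⟩ : ∃ r : ℝ, 0 < r ∧ r < ρ₁ ∧ r < r₁ ∧ r < r₂ ∧
        C * r ≤ min κ₁ κ₂ := by
      have hm : 0 < min (min ρ₁ (min r₁ r₂)) (min κ₁ κ₂ / C) :=
        lt_min (lt_min hρ₁ (lt_min hr₁ hr₂)) (div_pos (lt_min hκ₁ hκ₂) hC0)
      refine ⟨min (min ρ₁ (min r₁ r₂)) (min κ₁ κ₂ / C) / 2, by positivity, ?_, ?_, ?_, ?_⟩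
      · exact (half_lt_self hm).trans_le ((min_le_left _ _).trans (min_le_left _ _))
      · exact (half_lt_self hm).trans_le ((min_le_left _ _).trans ((min_le_right _ _).trans
          (min_le_left _ _)))
      · exact (half_lt_self hm).trans_le ((min_le_left _ _).trans ((min_le_right _ _).trans
          (min_le_right _ _)))
      · have h1 := (half_lt_self hm).le.trans (min_le_right _ _)
        rw [le_div_iff₀ hC0] at h1
        linarith
    obtain ⟨x, x1, x2⟩ := exists_rat_btwn (show g < g + r / 2 by linarith)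
    have hN : ∀ κ : ℝ, C * r ≤ κ → NrJ sn d T oB TB
        (fun l => sn l g + dgj ((Sg + 1) * r) (2 * r) d l + 2 * (2 * r))
        (fun l => sn l g + dgj ((Sg + 1) * r) (2 * r) d l + 2 * (2 * r) - g)
        (dgj ((Sg + 1) * r) (2 * r) d) (fun i => TB i g - oB i * (g + r)) g (g + r)
        (e' * r) κ := by
      intro κ hκ
      refine nrJ_dgj (by positivity) (by linarith) (by linarith) (by linarith) ?_ (fun i' => ?_) ?_
      · have := mul_le_mul_of_nonneg_right he2 hr.le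
        linarith
      · have := (hT r hr s1 i' g (g + r) (by linarith) (by linarith) le_rfl).2
        linarith
      · have h2 : C * r = ((Sg + 1) * r + 4 * (2 * r)) * 4 ^ d + 2 * (2 * r) := by
          rw [hC]
          ring
        linarith
    have n1 := hN κ₁ (s4.trans (min_le_left _ _))
    have n2 := hN κ₂ (s4.trans (min_le_right _ _))
    have v1 := (H1 r hr s2 g hg x (g + r) (by linarith) x1.le (by linarith) le_rfl _ _ _ _
      n1).v hpos fun i => hatB i g hg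
    have v2 := H2 r hr s3 g hg x (g + r) (by linarith) x1.le (by linarith) le_rfl _ _ _
      n2.nr n2.g
    have h3 := rtV_cmp hne hpos (fun i : Fin n => i) (hη x) hW hg (fun i => hat i g hg) v2 v1
    have h4 := rtV_cmp hne hpos (fun i : Fin n => i) (hη x) hW hg (fun i => hat i g hg) v1 v2
    have h5 : r / 2 ≤ g + r - x := by linarith
    have h6 : e' * (r / 2) ≤ e' * (g + r - x) := mul_le_mul_of_nonneg_left h5 he'.le
    have h7 : 0 < g + r - x := by linarith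
    have h8 : (φ - φ₀) * (g + r - x) ≤ 4 * e' * (g + r - x) := by linarith
    have h9 : (φ₀ - φ) * (g + r - x) ≤ 4 * e' * (g + r - x) := by linarith
    have h10 := le_of_mul_le_mul_right h8 h7
    have h11 := le_of_mul_le_mul_right h9 h7
    rw [abs_le]
    constructor <;> linarith
  refine ⟨κ₁, hκ₁, r₁, hr₁, fun r hr hrr b hb x o a1 a2 a3 a4 nH nV lv nB hN => ?_⟩
  have h1 : e' * r ≤ e * r := mul_le_mul_of_nonneg_right (by linarith) hr.le
  refine (H1 r hr hrr b hb x o a1 a2 a3 a4 nH nV lv nB (nrJ_τ hN h1)).le ?_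
  have h3 : |φ * (o - x) - φ₀ * (o - x)| ≤ 4 * e' * (2 * r) := by
    rw [← sub_mul, abs_mul, abs_of_nonneg (show 0 ≤ o - x by linarith)]
    exact mul_le_mul hcmp (by linarith) (by linarith) (by positivity)
  have h4 : 10 * e' * r ≤ e * r := mul_le_mul_of_nonneg_right he1 hr.le
  have h5 : 0 < e' * r := mul_pos he' hr
  linarith

end

/-- **The rates of a place** over the places below it: the vectors of the orders `j, …, K` have the
rates `φ j`; if the slope is `K + 1` also given the near jet of the order `K + 1`, and the records do not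
see this jet. -/
def RkP {m : ℕ} {γ : ∀ J : ℕ, Fam m J → Type} (S : PCl m)
    (y₀ : ∀ (J : ℕ) (F : Fam m J), F.Ω → γ J F) (c : ℕ → Fin m) (d K : ℕ)
    (sn : ℕ → ℝ → ℝ) (G : Set ℝ) (g Sr : ℝ) : Prop :=
  ∃ φ : ℕ → ℝ, (∀ j, 0 ≤ φ j) ∧ (∀ j, φ (j + 1) ≤ φ j) ∧ (∀ j, K < j → φ j = 0) ∧
    (∀ j, RvU S y₀ c d (fun _ : Fin (K + 1 - j) => c d) (fun i => odv j i) sn (fun _ w => sn d w)
      G g (φ j)) ∧
    (Sr = K + 1 → (∀ j, RvK S y₀ c d (fun _ : Fin (K + 1 - j) => c d) (fun i => odv j i)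
      (fun _ : Fin 1 => c d) (fun _ => K + 1) sn (fun _ w => sn d w) (fun _ w => sn d w) G g
      (φ j)) ∧
      SkG S y₀ c d (fun _ : Fin 1 => c d) (fun _ => K + 1) sn (fun (_ : Fin 0) w => sn d w)
        (fun _ w => sn d w) G g)

theorem RkP.sub {m : ℕ} {γ : ∀ J : ℕ, Fam m J → Type} {S S' : PCl m}
    {y₀ : ∀ (J : ℕ) (F : Fam m J), F.Ω → γ J F} {c : ℕ → Fin m} {d K : ℕ}
    {sn : ℕ → ℝ → ℝ} {G : Set ℝ} {g Sr : ℝ}
    (hs : ∀ (τ : ℝ) (J : ℕ) (F : Fam m J) (A : F.Ω → Prop), S'.St τ J F A → S.St τ J F A)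
    (h : RkP S y₀ c d K sn G g Sr) : RkP S' y₀ c d K sn G g Sr := by
  obtain ⟨φ, h1, h2, h3, h4, h5⟩ := h
  exact ⟨φ, h1, h2, h3, fun j => (h4 j).sub hs, fun h => ⟨fun j => ((h5 h).1 j).sub hs,
    (h5 h).2.sub hs⟩⟩

/-- From the statements of `rj_le` and `rk_le` at `g`. -/
theorem rkP_of {m : ℕ} {γ : ∀ J : ℕ, Fam m J → Type} {S : PCl m}
    {y₀ : ∀ (J : ℕ) (F : Fam m J), F.Ω → γ J F} {c : ℕ → Fin m} {d K : ℕ}
    {sn : ℕ → ℝ → ℝ} {G : Set ℝ} {g Sr : ℝ} (hne : S.Ne)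
    (hpos : ∀ (τ : ℝ) (J : ℕ) (F : Fam m J) (A : F.Ω → Prop), S.St τ J F A → 0 < Pe F.p A)
    (hη : ∀ w : ℚ, ∃ η, RNum S (fun J F => ptr F J) (vg (w : ℝ)) η)
    (hW : ChG S c d sn G) (hg : g ∈ G)
    (hat : ∀ b ∈ G, ∃ rk, 0 ≤ rk ∧ Att S ((range d).image c) (c d) b (sn d b) rk)
    (gap : ∀ η : ℝ, 0 < η → ∃ ρ : ℝ, 0 < ρ ∧ ∀ t : ℝ, 0 < t → t < ρ → ∀ x : ℝ, g - t ≤ x →
      x ≤ g + t → ∃ u ∈ G, x - η * t ≤ u ∧ u ≤ x)
    (hdl : ∀ l < d, HasDerivAt (fun x => sn l x) 1 g) (hdT : HasDerivAt (fun x => sn d x) Sr g)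
    (hS1 : 1 ≤ Sr) (hK : (K : ℝ) < Sr)
    (hJ : ∀ n j : ℕ, SlB sn d (fun (_ : Fin n) w => sn d w) G g Sr →
        TgB (fun (_ : Fin n) w => sn d w) g Sr →
        LoB (fun i : Fin n => odv j i) (fun (_ : Fin n) w => sn d w) G g →
        RjG S y₀ c d (fun _ : Fin n => c d) (fun i : Fin n => odv j i) (fun _ : Fin 0 => c d)
          (fun _ => 0) sn (fun _ w => sn d w) (fun _ w => sn d w) G g)
    (hk : ∀ n j : ℕ, SlB sn d (fun (_ : Fin n) w => sn d w) G g Sr →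
        TgB (fun (_ : Fin n) w => sn d w) g Sr →
        SlK (fun _ : Fin 1 => K + 1) (fun _ w => sn d w) G g →
        (LoB (fun i : Fin n => odv j i) (fun (_ : Fin n) w => sn d w) G g →
        RjG S y₀ c d (fun _ : Fin n => c d) (fun i : Fin n => odv j i) (fun _ : Fin 1 => c d)
          (fun _ => K + 1) sn (fun _ w => sn d w) (fun _ w => sn d w) G g) ∧
        SkG S y₀ c d (fun _ : Fin 1 => c d) (fun _ => K + 1) sn (fun (_ : Fin n) w => sn d w)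
          (fun _ w => sn d w) G g) :
    RkP S y₀ c d K sn G g Sr := by
  have hSr0 : (0 : ℝ) ≤ Sr := by linarith
  have hSB : ∀ n : ℕ, SlB sn d (fun (_ : Fin n) w => sn d w) G g Sr := fun n =>
    slB_ofn n hdl hdT le_rfl gap
  have hTB : ∀ n : ℕ, TgB (fun (_ : Fin n) w => sn d w) g Sr := fun n =>
    tgB_ofn n hdT hS1 le_rfl
  have hLB : ∀ j : ℕ, LoB (fun i : Fin (K + 1 - j) => odv j i)
      (fun (_ : Fin (K + 1 - j)) w => sn d w) G g := fun j =>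
    loB_ofn hdT fun i => by
      have h5 : j + (i : ℕ) ≤ K := by
        have := i.2
        omega
      have h6 : ((odv j i : ℕ) : ℝ) ≤ K := by
        unfold odv
        exact_mod_cast h5
      linarith
  have key : ∀ j : ℕ, ∃ φ : ℝ, 0 ≤ φ ∧ (K < j → φ = 0) ∧
      RvU S y₀ c d (fun _ : Fin (K + 1 - j) => c d)
      (fun i => odv j i) sn (fun _ w => sn d w) G g φ := by
    intro j
    rcases Nat.lt_or_ge K j with hj | hj
    · exact ⟨0, le_rfl, fun _ => rfl, rvU_empty (by omega) hpos⟩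
    · obtain ⟨φ, hφ, H⟩ := rvG_uni hne hpos hη hW hg
        (fun _ => hat) (fun i => i.elim0) hSr0
        (hTB _) (hJ (K + 1 - j) j (hSB _) (hTB _) (hLB j))
      exact ⟨φ, hφ, fun h => absurd h (by omega), H⟩
  choose φ hφ hφ0 Hφ using key
  refine ⟨φ, hφ, fun j => ?_, hφ0, Hφ, fun hS => ?_⟩
  · rcases Nat.lt_or_ge K (j + 1) with hj' | hj'
    · rw [hφ0 _ hj']
      exact hφ j
    · have h2 := Hφ (j + 1)
      refine rvU_mono hne hpos (n := K + 1 - j) (n₂ := K + 1 - (j + 1))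
        (fun i => ⟨i + 1, by have := i.2; omega⟩) hη hW hg
        (fun _ => hat) hSr0 (hTB _) (Hφ j) ?_
      have e6 : (fun i : Fin (K + 1 - (j + 1)) => odv (j + 1) i) =
          fun i : Fin (K + 1 - (j + 1)) => odv j (⟨i + 1, by have := i.2; omega⟩ :
            Fin (K + 1 - j)) := by
        funext i
        unfold odv
        simp only
        omega
      rw [e6] at h2
      exact h2
  · have hsk : SlK (fun _ : Fin 1 => K + 1) (fun _ w => sn d w) G g := by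
      intro η hη'
      obtain ⟨ρ, h1, H⟩ := der_box hdT hη'
      refine ⟨ρ, h1, fun t ht htρ w _ v _ e1 e2 e3 i => ?_⟩
      have h2 := H t ht htρ w v e1 e2 e3
      rw [hS] at h2
      push_cast
      exact h2
    exact ⟨fun j => rjG_K hne hpos hη hW hg (fun _ => hat) (fun _ => hat) hSr0 (hTB _) (Hφ j)
      ((hk (K + 1 - j) j (hSB _) (hTB _) hsk).1 (hLB j)), (hk 0 0 (hSB _) (hTB _) hsk).2⟩

/-- **The rates of the jets of the place** `p.1` over the places below it, given the near path, in the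
boxes around the window `x`, orders up to `p.2`; if the slope is `p.2 + 1` with the jet of the order
`p.2 + 1` as jet of the second kind. Side information `F.T`, and `F.W`. -/
structure VrK {n : ℕ} (p : ℕ × ℕ) (k₀ : ℕ) (S : PCl n)
    (P : List (Fin n) × Fin n → ℝ → ℝ → ℝ) (θ : ℝ) (c : ℕ → Fin n) (Pt : ℝ → ℝ → ℝ)
    (r : ℝ → ℝ) (L T : ℕ → ℝ → ℝ → ℝ) (κ : ℕ → Kg) (G : Set ℝ) (x : ℝ) : Prop where
  /-- The numbers of the records exist. -/
  rn : ∃ η : ℚ → ℝ, ∀ w : ℚ, RNum S (fun J F => ptr F J) (vg (w : ℝ)) (η w)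
  /-- The chains at the windows of `G`. -/
  ch : ∀ d < n, ChG S c d (fun l w => L l w w) G
  /-- The windows of `G` near `x`. -/
  gap : ∀ η : ℝ, 0 < η → ∃ ρ : ℝ, 0 < ρ ∧ ∀ t : ℝ, 0 < t → t < ρ → ∀ y : ℝ, x - t ≤ y →
    y ≤ x + t → ∃ u ∈ G, y - η * t ≤ u ∧ u ≤ y
  /-- The rates, side information `F.T`. -/
  rt : p.1 + 1 < n → (∀ l < p.1, κ l = .one) → ∀ Sr : ℝ,
    HasDerivAt (fun a => L p.1 a a) Sr x → (p.2 : ℝ) < Sr →
    RkP S (fun (_ : ℕ) (F : Fam n _) => F.T) c p.1 p.2 (fun l w => L l w w) G x Sr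
  /-- The rates, side information `F.W`. -/
  rw : p.1 + 1 < n → (∀ l < p.1, κ l = .one) → ∀ Sr : ℝ,
    HasDerivAt (fun a => L p.1 a a) Sr x → (p.2 : ℝ) < Sr →
    RkP S (fun (_ : ℕ) (F : Fam n _) => F.W) c p.1 p.2 (fun l w => L l w w) G x Sr

/-- The property passes to subclasses. -/
theorem VrK.sub {n : ℕ} {p : ℕ × ℕ} {k₀ : ℕ} {S S' : PCl n}
    {P : List (Fin n) × Fin n → ℝ → ℝ → ℝ} {θ : ℝ} {c : ℕ → Fin n} {Pt : ℝ → ℝ → ℝ}
    {r : ℝ → ℝ} {L T : ℕ → ℝ → ℝ → ℝ} {κ : ℕ → Kg} {G : Set ℝ} {x : ℝ}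
    (hs : ∀ (τ : ℝ) (J : ℕ) (F : Fam n J) (A : F.Ω → Prop), S'.St τ J F A → S.St τ J F A)
    (h : VrK p k₀ S P θ c Pt r L T κ G x) : VrK p k₀ S' P θ c Pt r L T κ G x where
  rn := by
    obtain ⟨η, hη⟩ := h.rn
    exact ⟨η, fun w => (hη w).sub hs⟩
  ch := fun d hd => (h.ch d hd).sub hs
  gap := h.gap
  rt := fun e1 e2 Sr e3 e4 => (h.rt e1 e2 Sr e3 e4).sub hs
  rw := fun e1 e2 Sr e3 e4 => (h.rw e1 e2 Sr e3 e4).sub hs

theorem her_vk (n : ℕ) : HerQ (VrK : PropG n (ℕ × ℕ)) :=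
  fun _ _ _ _ _ _ _ _ _ _ _ _ _ _ hs h => h.sub hs

/-- **The property `VrK` holds at almost every window**, in a subclass. -/
theorem aePG_vk (n : ℕ) : AePG n (VrK : PropG n (ℕ × ℕ)) := by
  classical
  intro hn S P r P' Λ PB PQ H hTop hF o G hG hGs
  obtain ⟨al, g₀, s, d', e', K₁, N₁, hal, hg₀, hC⟩ := H.cl
  have htm : TmC S 6 := Pool.GEN.N83.clx_tmc hC
  have hM : Bas S (fun J F A => (cnt F.p (ptr F J) A : ℝ) ≤ Real.exp ((4 * n + 1) * J)) :=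
    Bas.mono 0 hC.cnt fun J _ F A h => h J le_rfl
  have hW : ∀ d < n, ChG S (cc hn o.1.1) d (fun l w => LvL hn P P' o l w w) G :=
    fun d hd => gs_chG H.toPk hTop hF hGs (by omega)
  obtain ⟨S₁, a1, a2, η, hη⟩ := rnum_ptr hC.ne hC.pos hM
  have hatt : ∀ d < n - 1, ∀ w ∈ G, ∃ rk, 0 ≤ rk ∧
      Att S₁ ((range d).image (cc hn o.1.1)) (cc hn o.1.1 d) w (LvL hn P P' o d w w) rk := by
    intro d hd w hw
    obtain ⟨u₁, rd, h1, h2⟩ := (((hW (d + 1) (by omega)).sub a2).ch w hw)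
    exact ⟨rd d, h1 d (by omega), h2.att d (Nat.zero_le _) (by omega)⟩
  have hnic : ∀ d < n - 1, ∀ B : ℝ, B < 1 → NiC S₁ (cc hn o.1.1) d (fun _ : Fin 1 => cc hn o.1.1 d)
      (fun l w => LvL hn P P' o l w w) (fun _ w => LvL hn P P' o d w w) G 0 0 B := by
    intro d hd B hB
    have hmon : ∀ l ≤ n - 1, ∀ w ∈ G, ∀ v ∈ G, w ≤ v → LvL hn P P' o l w w - w ≤
        LvL hn P P' o l v v - v := fun l hl w hw v hv hwv =>
      law_gap (H.lawL o l) (hGs hw).1.1.1.le hwv (hGs hv).1.1.2.1.le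
        (lev_lt' H.toPk hTop hF (hGs hv) hl)
    exact
    { ne := a1
      pos := fun τ J F A h => hC.pos τ J F A (a2 τ J F A h)
      tm := ⟨6, fun τ J F A hτ h => htm τ J F A hτ (a2 τ J F A h)⟩
      rn := fun w _ _ => ⟨η w, by
        rw [add_zero]
        exact hη w⟩
      cl := hG
      ch := (hW d (by omega)).sub a2
      mn := fun l hl w hw v hv hwv => by
        have := hmon l (by omega) w hw v hv hwv
        linarith
      att := fun _ w hw => hatt d hd w hw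
      mT := fun _ w hw v hv hwv => hmon d (by omega) w hw v hv hwv
      B1 := hB }
  obtain ⟨S₂, b1, b2, b3⟩ := rj_le (sdI_T (cc hn o.1.1)) (n - 1) a1 hnic
  obtain ⟨S₃, c1, c2, c3⟩ := rk_le (sdI_T (cc hn o.1.1)) (n - 1) b1 fun d hd B hB =>
    (hnic d hd B hB).sub b1 b2
  have c2' : ∀ (τ : ℝ) (J : ℕ) (F : Fam n J) (A : F.Ω → Prop), S₃.St τ J F A → S₁.St τ J F A :=
    fun τ J F A h => b2 τ J F A (c2 τ J F A h)
  obtain ⟨S₄, d1, d2, d3⟩ := rj_le (sdI_W (cc hn o.1.1)) (n - 1) c1 fun d hd B hB =>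
    (hnic d hd B hB).sub c1 c2'
  have d2' : ∀ (τ : ℝ) (J : ℕ) (F : Fam n J) (A : F.Ω → Prop), S₄.St τ J F A → S₁.St τ J F A :=
    fun τ J F A h => c2' τ J F A (d2 τ J F A h)
  obtain ⟨S₅, f1, f2, f3⟩ := rk_le (sdI_W (cc hn o.1.1)) (n - 1) d1 fun d hd B hB =>
    (hnic d hd B hB).sub d1 d2'
  have s54 := f2
  have s52 : ∀ (τ : ℝ) (J : ℕ) (F : Fam n J) (A : F.Ω → Prop), S₅.St τ J F A → S₂.St τ J F A :=
    fun τ J F A h => c2 τ J F A (d2 τ J F A (f2 τ J F A h))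
  have s53 : ∀ (τ : ℝ) (J : ℕ) (F : Fam n J) (A : F.Ω → Prop), S₅.St τ J F A → S₃.St τ J F A :=
    fun τ J F A h => d2 τ J F A (f2 τ J F A h)
  have s51 : ∀ (τ : ℝ) (J : ℕ) (F : Fam n J) (A : F.Ω → Prop), S₅.St τ J F A → S₁.St τ J F A :=
    fun τ J F A h => d2' τ J F A (f2 τ J F A h)
  refine ⟨S₅, f1, fun τ J F A h => a2 τ J F A (s51 τ J F A h), ?_⟩
  filter_upwards [b3, c3, d3, f3, H.toPkT.dia_all H.pble hTop hF, gap_ae hG]
    with g h1 h2 h3 h4 hdia hgap hg κ hκ p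
  have ho := hGs hg
  have g0 : 0 < g := ho.1.1.1
  have g1 : g < 1 := ho.1.1.2.1
  have hpos₅ : ∀ (τ : ℝ) (J : ℕ) (F : Fam n J) (A : F.Ω → Prop), S₅.St τ J F A → 0 < Pe F.p A :=
    fun τ J F A h => hC.pos τ J F A (a2 τ J F A (s51 τ J F A h))
  have hrn : ∀ w : ℚ, ∃ η, RNum S₅ (fun J F => ptr F J) (vg (w : ℝ)) η :=
    fun w => ⟨η w, (hη w).sub s51⟩
  have key : p.1 + 1 < n → (∀ l < p.1, κ l = .one) → ∀ Sr : ℝ,
      HasDerivAt (fun a => LvL hn P P' o p.1 a a) Sr g → 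
      (∀ l < p.1, HasDerivAt (fun x => LvL hn P P' o l x x) 1 g) ∧ 1 ≤ Sr ∧
      (∀ b ∈ G, ∃ rk, 0 ≤ rk ∧ Att S₅ ((range p.1).image (cc hn o.1.1)) (cc hn o.1.1 p.1) b
        (LvL hn P P' o p.1 b b) rk) ∧ ∀ l < p.1, LvL hn P P' o l g g < 1 := by
    intro e1 e2 Sr e3
    refine ⟨fun l hl => ?_, ?_, fun b hb => ?_, fun l hl => lev_lt' H.toPk hTop hF ho (by omega)⟩
    · have h2 := hκ l (by omega)
      rw [e2 l hl] at h2
      have h3 : deriv (fun a => LvL hn P P' o l a a) g = 1 := h2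
      have h4 := (hdia o ho l (by omega)).1.hasDerivAt
      rw [h3] at h4
      exact h4
    · exact slope_ge (H.lawL o p.1) g0 g1 (lev_lt' H.toPk hTop hF ho (by omega)) e3
    · obtain ⟨rk, r1, r2⟩ := hatt p.1 (by omega) b hb
      exact ⟨rk, r1, r2.sub s51⟩
  refine ⟨0, ⟨η, fun w => (hη w).sub s51⟩, fun d hd => ((hW d hd).sub a2).sub s51, hgap hg,
    fun e1 e2 Sr e3 e4 => ?_, fun e1 e2 Sr e3 e4 => ?_⟩
  · obtain ⟨k1, k2, k3, k4⟩ := key e1 e2 Sr e3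
    exact rkP_of f1 hpos₅ hrn (((hW p.1 (by omega)).sub a2).sub s51) hg k3 (hgap hg) k1 e3 k2 e4
      (fun n' j x1 x2 x3 => (h1 p.1 (by omega) n' j hg g0 g1 k4 Sr (by linarith) x1 x2 x3).sub s52)
      (fun n' j x1 x2 x3 => by
        obtain ⟨y1, y2⟩ := h2 p.1 (by omega) n' j (p.2 + 1) hg g0 g1 k4 Sr (by linarith) x1 x2 x3
        exact ⟨fun h => (y1 h).sub s53, y2.sub s53⟩)
  · obtain ⟨k1, k2, k3, k4⟩ := key e1 e2 Sr e3
    exact rkP_of f1 hpos₅ hrn (((hW p.1 (by omega)).sub a2).sub s51) hg k3 (hgap hg) k1 e3 k2 e4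
      (fun n' j x1 x2 x3 => (h3 p.1 (by omega) n' j hg g0 g1 k4 Sr (by linarith) x1 x2 x3).sub s54)
      (fun n' j x1 x2 x3 => h4 p.1 (by omega) n' j (p.2 + 1) hg g0 g1 k4 Sr (by linarith) x1 x2 x3)

end Pool.RK28
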