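import Pool.Agent.H28.RK.Real
import Pool.Agent.H28.RJ.Box

/-!
# The near jets of the second kind: small boxes

`SkG`: in small boxes around `g` the records do not see the near jets of the second kind, given the
near path. `sk_box`: at a point with good numbers; `sk_ae`: at almost every window, in a subclass.
-/

set_option autoImplicit false

namespace Pool.RK28

open Finset Real MvPolynomial MeasureTheory
open Pool.Agent.H49.Ent Pool.Agent.H32.Dense Pool.STK Pool.KA Pool.KSAT Pool.K2S Pool.PB Pool.S6C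
  Pool.GEN Pool.RCD Pool.LA91 Pool.LP30 Pool.LPJ30 Pool.RJ28
open Pool.OWN83 (TwoRelS TRelS ae_shift rel_clsS)
open Pool.AVG96 (fl fl_mem fl_mono le_fl whG)
open Pool.RV28 (SdI yG vchG box_D)
open Pool.OWN68 (cl2_vg)

variable {m : ℕ} {S : PCl m} {γ : ∀ J : ℕ, Fam m J → Type}
  {y₀ : ∀ (J : ℕ) (F : Fam m J), F.Ω → γ J F} {c : ℕ → Fin m} {d : ℕ} {s a A B g Sg : ℝ}
  {sn : ℕ → ℝ → ℝ} {G : Set ℝ} {n n' : ℕ} {k : Fin n → Fin m} {od : Fin n → ℕ}
  {kB : Fin n' → Fin m} {oB : Fin n' → ℕ} {T : Fin n → ℝ → ℝ} {TB : Fin n' → ℝ → ℝ}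

/-- **The records do not see the near jets of the second kind** given the near path, in small boxes
around `g`. -/
def SkG (S : PCl m) (y₀ : ∀ (J : ℕ) (F : Fam m J), F.Ω → γ J F) (c : ℕ → Fin m) (d : ℕ)
    {n n' : ℕ} (kB : Fin n' → Fin m) (oB : Fin n' → ℕ)
    (sn : ℕ → ℝ → ℝ) (T : Fin n → ℝ → ℝ) (TB : Fin n' → ℝ → ℝ) (G : Set ℝ) (g : ℝ) : Prop :=
  ∀ e : ℝ, 0 < e → ∃ κ₀ : ℝ, 0 < κ₀ ∧ ∃ r₀ : ℝ, 0 < r₀ ∧
    ∀ r : ℝ, 0 < r → r < r₀ →
    ∀ b ∈ G, ∀ x o : ℝ, g - r ≤ b → b ≤ x → x ≤ o → o ≤ g + r →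
    ∀ (nH nV lv : ℕ → ℝ) (nB : Fin n' → ℝ), NrJ sn d T oB TB nH nV lv nB b o (e * r) κ₀ →
      SkD S y₀ c d kB oB sn TB nH nV nB b x o (e * r)

theorem SkG.sub {S' : PCl m} (hs : ∀ (τ : ℝ) (J : ℕ) (F : Fam m J) (A : F.Ω → Prop),
    S'.St τ J F A → S.St τ J F A) (h : SkG S y₀ c d kB oB sn T TB G g) :
    SkG S' y₀ c d kB oB sn T TB G g := by
  intro e he
  obtain ⟨κ₀, hκ, r₀, hr, H⟩ := h e he
  exact ⟨κ₀, hκ, r₀, hr, fun r h1 h2 b hb x o a1 a2 a3 a4 nH nV lv nB hN =>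
    (H r h1 h2 b hb x o a1 a2 a3 a4 nH nV lv nB hN).sub hs⟩

/-- **The near jets of the second kind**, at a point with good numbers. -/
theorem sk_box (hsd : SdI c y₀) (h : NiC S c d k sn T G s A B) (h' : NiC S c d kB sn TB G s A B)
    (hA : ∃ u ∈ G, A ≤ u ∧ u ≤ a + s)
    {θ₀ : EIxJ d n' → ℚ → ℝ} {θ : EIxJ d n' → ℚ → ℚ → ℝ}
    (hN : NjN S (fun J F => ptr F J) (yG ((range d).image c) y₀) c d s a (B - s) (whG G A s) sn G k
      od (fun i w => T i (whG G A s w)) kB oB (fun i w => TB i (whG G A s w)) θ₀ θ)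
    (hgG : g ∈ G) (hAg : A < g) (hgB : g < B) (s1 : ∀ l < d, sn l g < 1) (hSg : 0 ≤ Sg)
    (hsl : SlB sn d T G g Sg) (htg : TgB T g Sg) (hsk : SlK oB TB G g)
    (hgd : ∀ e : ℝ, 0 < e → ∀ ρ : ℝ, 0 < ρ → ∃ (φ : ℝ) (i : EIxJ d n'),
      GdRJ (whG G A s) sn d G (fun i w => T i (whG G A s w)) oB (fun i w => TB i (whG G A s w))
      a (B - s) θ₀ θ (g - s) e ρ φ i) : SkG S y₀ c d kB oB sn T TB G g := by
  intro e he
  have hd0 : (0 : ℝ) ≤ d := Nat.cast_nonneg d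
  have hn0 : (0 : ℝ) ≤ n := Nat.cast_nonneg n
  have hB1 := h.B1
  obtain ⟨Ob, hOb0, hOA, hOB⟩ : ∃ Ob : ℝ, 0 ≤ Ob ∧ (∀ i, (od i : ℝ) ≤ Ob) ∧
      ∀ i, (oB i : ℝ) ≤ Ob := by
    refine ⟨∑ i, (od i : ℝ) + ∑ i, (oB i : ℝ), add_nonneg
      (Finset.sum_nonneg fun i _ => Nat.cast_nonneg _)
      (Finset.sum_nonneg fun i _ => Nat.cast_nonneg _), fun i => ?_, fun i => ?_⟩
    · have e1 := Finset.single_le_sum (f := fun i => (od i : ℝ)) (fun i _ => Nat.cast_nonneg _)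
        (Finset.mem_univ i)
      have e2 : (0 : ℝ) ≤ ∑ i, (oB i : ℝ) := Finset.sum_nonneg fun i _ => Nat.cast_nonneg _
      linarith
    · have e1 := Finset.single_le_sum (f := fun i => (oB i : ℝ)) (fun i _ => Nat.cast_nonneg _)
        (Finset.mem_univ i)
      have e2 : (0 : ℝ) ≤ ∑ i, (od i : ℝ) := Finset.sum_nonneg fun i _ => Nat.cast_nonneg _
      linarith
  obtain ⟨rt, i, hgi⟩ := hgd (e / 16) (by positivity) 1 one_pos
  have hadm := hgi.adm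
  have ia := hgi.ia
  have ib := hgi.ib
  have il := hgi.il
  have hrt := hgi.φ0
  obtain ⟨r₁, hr₁, hgr⟩ := hgi.r
  -- the rooms
  obtain ⟨R₁, hR₁, hR₁s⟩ := fin_lb (D := d) (f := fun l => 1 - sn l g) fun l hl => by
    linarith [s1 l hl]
  obtain ⟨Lv, hLv, hLvl⟩ := fin_lb (D := d) (f := exN i.lv) hadm.ed.ed.lv0
  have hσd := hadm.ed.ed.σ0
  obtain ⟨R, hR, hRg, hRs⟩ : ∃ R : ℝ, 0 < R ∧ 32 * R ≤ 1 - g ∧ 32 * R ≤ R₁ :=
    ⟨min ((1 - g) / 32) (R₁ / 32), lt_min (by linarith) (by positivity), by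
      have := min_le_left ((1 - g) / 32) (R₁ / 32)
      linarith, by
      have := min_le_right ((1 - g) / 32) (R₁ / 32)
      linarith⟩
  -- the error of the levels
  have hSO : 0 ≤ Sg + Ob := by linarith
  obtain ⟨D, hD⟩ : ∃ D : ℝ, D = ((d : ℝ) + 1) ^ 2 * (n + 1) * ((Sg + Ob) + 1) + rt := ⟨_, rfl⟩
  have hD0 : 0 < D := by rw [hD]; positivity
  obtain ⟨η, hη, hη1, hη2⟩ : ∃ η : ℝ, 0 < η ∧ 400 * η ≤ 1 ∧ 4000 * (D * η) ≤ e := by
    refine ⟨min (1 / 400) (e / (4000 * D)), by positivity, ?_, ?_⟩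
    · have := min_le_left (1 / 400) (e / (4000 * D))
      linarith
    · have := min_le_right (1 / 400) (e / (4000 * D))
      have h2 := mul_le_mul_of_nonneg_left this (show (0 : ℝ) ≤ 4000 * D by positivity)
      rw [mul_div_cancel₀ _ (by positivity)] at h2
      linarith
  obtain ⟨ρ₁, hρ₁, H1⟩ := hsl η hη
  obtain ⟨ρ₂, hρ₂, H2⟩ := htg η hη
  obtain ⟨ρ₄, hρ₄, H4⟩ := hsk η hη
  have lam0 : (0 : ℝ) < i.lam := by exact_mod_cast hadm.lam0
  obtain ⟨κ₀, hκ₀, hκR, hκL, hκσ, hκρ⟩ : ∃ κ₀ : ℝ, 0 < κ₀ ∧ κ₀ ≤ R ∧ κ₀ ≤ Lv / 2 ∧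
      κ₀ ≤ (i.σ₀ : ℝ) / 2 ∧ κ₀ ≤ ρ₁ / 32 :=
    ⟨min (min R (Lv / 2)) (min ((i.σ₀ : ℝ) / 2) (ρ₁ / 32)), by positivity, by simp, by simp,
      by simp, by simp⟩
  obtain ⟨r₀, hr₀, k1, k2, k3, k4, k5, k6, k7, k8, k9, k10, k11, k13, k14, k15, k16⟩ :
      ∃ r₀ : ℝ, 0 < r₀ ∧ 2 * r₀ ≤ ρ₁ ∧
      2 * r₀ ≤ ρ₂ ∧ 2 * r₀ ≤ r₁ ∧ 8 * r₀ ≤ g - A ∧ 8 * r₀ ≤ B - g ∧ 8 * r₀ ≤ i.lam ∧
      8 * r₀ ≤ g - s - i.a ∧ 8 * r₀ ≤ i.b - (g - s) ∧ 8 * ((Sg + Ob + 1) * r₀) ≤ R ∧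
      8 * (e * r₀) ≤ R ∧ 8 * r₀ ≤ Lv ∧ 2 * r₀ ≤ ρ₄ ∧ 8 * r₀ ≤ i.σ₀ ∧
      32 * r₀ ≤ ρ₁ ∧ 32 * (e * r₀) ≤ ρ₁ := by
    obtain ⟨r₀, h1, h2⟩ := list_lb [ρ₁ / 2, ρ₂ / 2, r₁ / 2, (g - A) / 8, (B - g) / 8, i.lam / 8,
      (g - s - i.a) / 8, (i.b - (g - s)) / 8, R / (8 * (Sg + Ob + 1)), R / (8 * e), Lv / 8,
      ρ₄ / 2, (i.σ₀ : ℝ) / 8, ρ₁ / 32, ρ₁ / (32 * e)] (by
        have x1 : 0 < g - A := by linarith
        have x2 : 0 < B - g := by linarith
        have x3 : 0 < g - s - i.a := by linarith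
        have x4 : 0 < i.b - (g - s) := by linarith
        simp only [List.mem_cons, List.not_mem_nil, or_false, forall_eq_or_imp, forall_eq]
        refine ⟨?_, ?_, ?_, ?_, ?_, ?_, ?_, ?_, ?_, ?_, ?_, ?_, ?_, ?_, ?_⟩ <;> positivity)
    simp only [List.mem_cons, List.not_mem_nil, or_false, forall_eq_or_imp, forall_eq] at h2
    obtain ⟨a1, a2, a3, a4, a5, a6, a7, a8, a9, a10, a11, a13, a14, a15, a16⟩ := h2
    refine ⟨r₀, h1, by linarith, by linarith, by linarith, by linarith, by linarith, by linarith,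
      by linarith, by linarith, ?_, ?_, by linarith, by linarith, by linarith, by linarith, ?_⟩
    · rw [le_div_iff₀ (by positivity)] at a9
      linarith
    · rw [le_div_iff₀ (by positivity)] at a10
      linarith
    · rw [le_div_iff₀ (by positivity)] at a16
      linarith
  refine ⟨κ₀, hκ₀, r₀, hr₀, fun r hr hrr b hb x o a1 a2 a4 a5 nH nV lv nB hNr => ?_⟩
  have HB := H1 (2 * r) (by positivity) (by linarith)
  have HT := H2 (2 * r) (by positivity) (by linarith)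
  have HK := H4 (2 * r) (by positivity) (by linarith)
  obtain ⟨X, hX⟩ : ∃ X : ℝ, X = e * r := ⟨_, rfl⟩
  obtain ⟨E, hE⟩ : ∃ E : ℝ, E = η * (2 * r) := ⟨_, rfl⟩
  rw [← hX] at hNr ⊢
  rw [← hE] at HT
  have hX0 : 0 < X := by rw [hX]; positivity
  have hE0 : 0 < E := by rw [hE]; positivity
  have hEr : 100 * E ≤ r := by
    have h1 := mul_le_mul_of_nonneg_right hη1 hr.le
    rw [hE]
    linarith only [h1, hr]
  have hDE : 2000 * (D * E) ≤ X := by
    have h1 := mul_le_mul_of_nonneg_right hη2 hr.le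
    have h2 : 2000 * (D * E) = 4000 * (D * η) * r := by rw [hE]; ring
    rw [h2, hX]
    exact h1
  have hXR : 8 * X ≤ R := by
    have h1 : e * r ≤ e * r₀ := mul_le_mul_of_nonneg_left hrr.le he.le
    rw [hX]
    linarith
  have hXρ : 32 * X ≤ ρ₁ := by
    have h1 : e * r ≤ e * r₀ := mul_le_mul_of_nonneg_left hrr.le he.le
    rw [hX]
    linarith
  have hSr' : 8 * ((Sg + Ob + 1) * r) ≤ R := by
    have h1 : (Sg + Ob + 1) * r ≤ (Sg + Ob + 1) * r₀ :=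
      mul_le_mul_of_nonneg_left hrr.le (by linarith)
    linarith
  have hObr : 0 ≤ Ob * r := by positivity
  have hSgr : 0 ≤ Sg * r := by positivity
  have hSr : 8 * ((Sg + 1) * r) ≤ R := by linarith only [hSr', hObr]
  have hrR : 8 * r ≤ R := by linarith only [hSr, hSgr]
  obtain ⟨φ, hφe⟩ : ∃ φ : ℝ, φ = X / (64 * ((d : ℝ) + 1) ^ 2) := ⟨_, rfl⟩
  have hφ : 64 * (((d : ℝ) + 1) ^ 2 * φ) = X := by
    rw [hφe]
    field_simp
  have hφ0 : 0 < φ := by rw [hφe]; positivity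
  have hdφ : 20 * ((d : ℝ) + 1) * φ ≤ X := by
    have h0 : (0 : ℝ) ≤ ((d : ℝ) + 1) * d * φ := by positivity
    have h1 : ((d : ℝ) + 1) ^ 2 * φ = ((d : ℝ) + 1) * φ + ((d : ℝ) + 1) * d * φ := by ring
    have h2 : 0 ≤ ((d : ℝ) + 1) * φ := by positivity
    linarith only [h0, h1, h2, hφ]
  obtain ⟨hD1, hD2, hD3, hD4, hD5, h5⟩ := box_D d n hSO hrt hE0.le
  rw [← hD] at hD1 hD2 hD3 hD4 hD5
  have hObE : 0 ≤ Ob * E := by positivity
  have hSgE : 0 ≤ Sg * E := by positivity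
  have hSbE : (Sg + Ob + 1) * E = Sg * E + Ob * E + E := by ring
  obtain ⟨w, v, oq, w1, w2, v1, v2, o3, o5, wv, vo, ⟨cw, cw1, cw2⟩, ⟨cv, cv1, cv2⟩,
    ⟨co, co1, co2⟩, cwv, cvo, x', hx', x1', x2'⟩ := idx_ex (s := s) (A := A) (x := x) (y := x)
      (o := o) h.cl HB hr (by linarith) hE hE0 hEr (by linarith) (by linarith) le_rfl a4 a5
  have hbox := mk_box (κ₀ := κ₀) (φ := φ) (X := X) (b := b) (x := x) (y := x) (o := o)
    (wc := whG G A s w) (vc := whG G A s v) (oc := whG G A s oq) h.mn HB HT hr hE hE0 hEr hX0 hφ0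
    hSg hgG hb a1 a2 le_rfl a4 a5 cw co (by linarith) (by linarith) (by linarith) (by linarith)
    (by linarith) (by linarith) cwv cvo (by linarith) (by linarith) hSr hκR hRg hRs hR₁s hdφ hNr.nr
  -- the earlier windows
  have hi : ∀ p ∈ ({b, whG G A s w, whG G A s oq} : Set ℝ), HiW sn d lv (X / 4) G p :=
    hi_box hbox H1 hη1 hη.le hr.le (by
      have h1 : 40 * (η * r) = 20 * E := by rw [hE]; ring
      have h2 : E ≤ D * E := by linarith
      linarith) h.mn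
      (by
        rintro p (rfl | rfl | rfl)
        · exact ⟨hb, by linarith, by linarith⟩
        · exact ⟨cw, by linarith, by linarith⟩
        · exact ⟨co, by linarith, by linarith⟩) hNr.g (by linarith) (by linarith) (by linarith)
  have htB : ∀ j, |TB j b - TB j (whG G A s w) - oB j * (b - whG G A s w)| ≤ E := by
    intro j
    rw [hE]
    rcases le_total b (whG G A s w) with hle | hle
    · have := HK b hb _ cw (by linarith) hle (by linarith) j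
      rw [abs_le] at this ⊢
      constructor <;> linarith [this.1, this.2]
    · exact HK _ cw b hb (by linarith) hle (by linarith) j
  have hbj : BoxJ sn d T od oB TB G nH nV lv nB b x x o (whG G A s w) (whG G A s v)
      (whG G A s oq) E X Sg Ob φ R κ₀ :=
    { bx := hbox
      hi := hi
      Ob0 := hOb0
      oA := hOA
      oB' := hOB
      ob := by
        have h1 : Ob * (o - b) ≤ Ob * (2 * r) := mul_le_mul_of_nonneg_left (by linarith) hOb0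
        linarith
      OX := by linarith
      tB := htB
      B1 := hNr.B1
      B2 := hNr.B2 }
  obtain ⟨hlin, hdrop⟩ := hgr (2 * r) (by positivity) (by linarith)
  obtain ⟨C₀, htm⟩ := h.tm
  have hEφ : E ≤ φ := by
    have h4 : ((d : ℝ) + 1) ^ 2 * E ≤ ((d : ℝ) + 1) ^ 2 * φ := by
      have h6 : 0 ≤ D * E := by positivity
      linarith only [hD5, hDE, hφ, h6]
    exact le_of_mul_le_mul_left h4 (by positivity)
  have ww : (i.a : ℝ) < w := by linarith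
  have ob : (oq : ℝ) < i.b := by linarith
  have hx1 : ∀ l < d, sn l x' - sn l (whG G A s oq) ≤ 3 * E := by
    intro l hl
    have h1 := (abs_le.1 (HB.sl _ co _ hx' (by linarith) (by linarith) (by linarith) l hl)).2
    rw [← hE] at h1
    linarith
  have hsum := sum_lo (sn := sn) (d := d) hE0.le hφ0.le hx1
  have hNV : ∀ l < d, nV l ≤ exN i.N l := by
    intro l hl
    have h1 := hadm.ed.ed.nat w ww (by linarith) l hl
    have h2 := hNr.nr.kv l hl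
    have h3 := hbox.fl l hl _ (show whG G A s w ∈ ({b, whG G A s w, whG G A s oq} : Set ℝ) by simp)
      b (by simp)
    have h4 := hLvl l hl
    have h5 := hadm.ed.ed.σ0
    linarith
  have hNB : ∀ j, nB j ≤ i.DB j := by
    intro j
    have h1 := hadm.bd.nat j w ww (by linarith)
    have h2 := hNr.B1 j
    have h3 := (abs_le.1 (htB j)).2
    linarith
  have hgap : ∀ x, whG G A s w ≤ x → x ≤ whG G A s oq → ∃ v' ∈ G, |v' - x| ≤ φ := by
    intro p p1 p2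
    obtain ⟨u, hu, u1, u2⟩ := HB.gap p (by linarith) (by linarith)
    rw [← hE] at u1
    refine ⟨u, hu, ?_⟩
    rw [abs_le]
    constructor <;> linarith
  have hfl : ∀ l < d, ∀ p ∈ G, whG G A s w ≤ p → p ≤ whG G A s oq →
      |(sn l p - p) - (sn l (whG G A s oq) - whG G A s oq)| ≤ 2 * φ := by
    intro l hl p hp p1 p2
    have h1 := abs_le.1 (HB.sl p hp _ co (by linarith) p2 (by linarith) l hl)
    rw [← hE] at h1
    rw [abs_le]
    constructor <;> linarith [h1.1, h1.2]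
  have hS := sk_fix hsd ((vchG h hsd hA).cut hadm.ha hadm.hb) lam0 hadm.ed
    ((h'.tgc hA).cut hadm.ha hadm.hb) hadm.bd
    (hN i hadm) (w := w) (o := oq) ww (wv.trans vo) ob
    (by linarith) (nB := nB) (hbox.nrD rfl rfl) hNV hNB hgap hfl hx' x1'
  have g3 := hdrop w oq (by linarith) (wv.trans vo) (by linarith)
  have g4 : e / 16 * (2 * r) = X / 8 := by rw [hX]; ring
  rw [g4] at g3
  have hI : SkI S y₀ c d kB oB sn TB nH nV nB (whG G A s w) ((w : ℝ) + s) ((oq : ℝ) + s)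
      (X / 2) := by
    intro ε hε
    obtain ⟨κ₁, hκ₁, e₀, he₀, H⟩ := hS ε hε
    refine ⟨κ₁, hκ₁, e₀, he₀, fun K => Bas.mono 0 (H K) ?_⟩
    intro J _ F A H V z V' z' hz hz' q pa hq hpa
    refine (H V z V' z' hz hz' q pa hq hpa).trans ?_
    have hJ0 : (0 : ℝ) ≤ J := Nat.cast_nonneg J
    refine (add_le_add_iff_left _).2 (mul_le_mul_of_nonneg_right ?_ hJ0)
    linarith
  refine (sk_real (y₀ := y₀) hsd htm h.pos h.ch h'.att hbj (zw := (w : ℝ) + s)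
    (zo := (oq : ℝ) + s) (κ := X / 2) (by linarith) (by linarith) (by linarith)
    (h.rn w (by linarith) (by linarith)) (h.rn oq (by linarith) (by linarith)) hI
    (ε := X / 2) (by linarith)).le (by linarith)

end Pool.RK28
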