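import Pool.Agent.H28.RJ.Pkg

/-!
# The near jets of the second kind: the record does not see them

`sk_ent`: entropies. `SkD`: given the near path over the charts of `b` the record at `o` knows at most
`κ` more bits of the near jets of the second kind than the record at `x`. `sk_fix`: at the indices.
-/

set_option autoImplicit false

namespace Pool.RK28

open Finset Real MvPolynomial
open Pool.Agent.H49.Ent Pool.Agent.H32.Dense Pool.STK Pool.KA Pool.KSAT Pool.K2S Pool.PB Pool.S6C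
  Pool.GEN Pool.RCD Pool.LA91 Pool.LP30 Pool.LPJ30 Pool.RJ28
open Pool.OWN83 (TwoRelS TRelS)
open Pool.OWN68 (cl2_vg)
open Pool.RV28 (SdI yG ful_y)

section

variable {Ω U E E' P H₀ X Y W Z Zo : Type} [Fintype Ω] {q : Ω → ℝ}

/-- **A function of the condition and of the positions is not seen**, entropies. -/
theorem sk_ent (h0 : ∀ ω, 0 ≤ q ω) {u : Ω → U} {e : Ω → E} {eo : Ω → E'}
    {pa : Ω → P} {hh : Ω → H₀} {x : Ω → X} {y : Ω → Y} {w : Ω → W} {z : Ω → Z}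
    {zo : Ω → Zo} {k B₁ B₂ B₃ T₁ T₂ : ℝ}
    (hd : Det q pa hh) (hy1 : Det q (fun ω => (x ω, w ω)) y)
    (hy2 : Det q y (fun ω => (x ω, w ω)))
    (f0 : CH q u (fun ω => (e ω, (z ω, y ω))) ≤ k)
    (f1 : CH q pa (fun ω => (e ω, (z ω, y ω))) ≤ k)
    (b1 : CH q x (fun ω => (hh ω, (z ω, w ω))) ≤ B₁)
    (b2 : B₂ ≤ CH q x (fun ω => ((z ω, zo ω), w ω)))
    (b3 : CH q hh (fun ω => ((z ω, zo ω), w ω)) ≤ B₃)
    (t1 : CH q e (fun ω => (z ω, y ω)) ≤ T₁)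
    (t2 : T₂ ≤ CH q eo (fun ω => ((z ω, zo ω), y ω)))
    (f5 : CH q eo (fun ω => (e ω, ((z ω, zo ω), y ω))) ≤ k) :
    CH q u (fun ω => (pa ω, (z ω, w ω))) ≤ CH q u (fun ω => (pa ω, ((z ω, zo ω), w ω))) +
      5 * k + (B₁ - B₂ + B₃) + (T₁ - T₂) := by
  -- one
  have s1 := CH_chain h0 u (fun ω => (e ω, x ω)) (fun ω => (pa ω, (z ω, w ω)))
  have s1' := CH_chain h0 (fun ω => (e ω, x ω)) u (fun ω => (pa ω, (z ω, w ω)))
  have s1'' : CH q (fun ω => (u ω, (e ω, x ω))) (fun ω => (pa ω, (z ω, w ω))) =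
      CH q (fun ω => ((e ω, x ω), u ω)) (fun ω => (pa ω, (z ω, w ω))) := by
    refine CH_congr h0 ?_ ?_ (fun _ _ _ _ hh => hh) (fun _ _ _ _ hh => hh) <;>
    · intro ω ω' _ _ hh
      simp only [Prod.mk.injEq] at hh ⊢
      tauto
  -- two
  have s2 : CH q u (fun ω => ((e ω, x ω), (pa ω, (z ω, w ω)))) ≤
      CH q u (fun ω => (e ω, (z ω, y ω))) := by
    refine CH_mono_cond h0 fun ω ω' a b h => ?_
    simp only [Prod.mk.injEq] at h ⊢
    exact ⟨h.1.1, h.2.2.1, hy1 ω ω' a b (Prod.ext h.1.2 h.2.2.2)⟩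
  -- three
  have s3' := ent_swap h0 (fun ω => (e ω, x ω)) pa hh (fun ω => (z ω, w ω)) hd
  -- four
  have s4 : CH q (fun ω => (e ω, x ω)) (fun ω => (u ω, (pa ω, ((z ω, zo ω), w ω)))) ≤
      CH q (fun ω => (e ω, x ω)) (fun ω => (u ω, (pa ω, (z ω, w ω)))) := by
    refine CH_mono_cond h0 fun ω ω' a b h => ?_
    simp only [Prod.mk.injEq] at h ⊢
    exact ⟨h.1, h.2.1, h.2.2.1.1, h.2.2.2⟩
  have s4' := CH_le_add h0 (fun ω => (e ω, x ω)) u (fun ω => (pa ω, ((z ω, zo ω), w ω)))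
  have s4''' := ent_swap h0 (fun ω => (e ω, x ω)) pa hh (fun ω => ((z ω, zo ω), w ω)) hd
  have s4o := CH_nonneg h0 pa (fun ω => ((e ω, x ω), (hh ω, ((z ω, zo ω), w ω))))
  -- five
  have s5 : CH q pa (fun ω => (hh ω, ((z ω, zo ω), w ω))) ≤ CH q pa (fun ω => (hh ω, (z ω, w ω))) := by
    refine CH_mono_cond h0 fun ω ω' a b h => ?_
    simp only [Prod.mk.injEq] at h ⊢
    exact ⟨h.1, h.2.1.1, h.2.2⟩
  -- six
  have s6 : CH q pa (fun ω => ((e ω, x ω), (hh ω, (z ω, w ω)))) ≤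
      CH q pa (fun ω => (e ω, (z ω, y ω))) := by
    refine CH_mono_cond h0 fun ω ω' a b h => ?_
    simp only [Prod.mk.injEq] at h ⊢
    exact ⟨h.1.1, h.2.2.1, hy1 ω ω' a b (Prod.ext h.1.2 h.2.2.2)⟩
  -- seven
  have s7 := CH_chain h0 e x (fun ω => (hh ω, (z ω, w ω)))
  have s7' : CH q e (fun ω => (x ω, (hh ω, (z ω, w ω)))) ≤ CH q e (fun ω => (z ω, y ω)) := by
    refine CH_mono_cond h0 fun ω ω' a b h => ?_
    simp only [Prod.mk.injEq] at h ⊢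
    exact ⟨h.2.2.1, hy1 ω ω' a b (Prod.ext h.1 h.2.2.2)⟩
  -- eight
  have s8 := CH_le_add h0 (fun ω => (e ω, x ω)) hh (fun ω => ((z ω, zo ω), w ω))
  have s8' := CH_chain h0 e x (fun ω => ((z ω, zo ω), w ω))
  have s8'' : CH q e (fun ω => ((z ω, zo ω), y ω)) ≤ CH q e (fun ω => (x ω, ((z ω, zo ω), w ω))) := by
    refine CH_mono_cond h0 fun ω ω' a b h => ?_
    have h1 := Prod.ext_iff.mp h
    have h2 := Prod.ext_iff.mp (hy2 ω ω' a b h1.2)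
    exact Prod.ext h2.1 (Prod.ext h1.1 h2.2)
  have s8''' := CH_le_add h0 eo e (fun ω => ((z ω, zo ω), y ω))
  have hk : 0 ≤ k := (CH_nonneg h0 _ _).trans f0
  linarith

end

variable {m : ℕ} {S : PCl m} {γ : ∀ J : ℕ, Fam m J → Type}
  {y₀ : ∀ (J : ℕ) (F : Fam m J), F.Ω → γ J F}

/-- **The record does not see the near jets of the second kind** between the windows `x` and `o`, up
to `κ`, given the near path over the charts of `b`. -/
def SkD (S : PCl m) (y₀ : ∀ (J : ℕ) (F : Fam m J), F.Ω → γ J F) (c : ℕ → Fin m) (d : ℕ)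
    {n' : ℕ} (kB : Fin n' → Fin m) (oB : Fin n' → ℕ) (sn : ℕ → ℝ → ℝ) (TB : Fin n' → ℝ → ℝ)
    (nH nV : ℕ → ℝ) (nB : Fin n' → ℝ) (b x o κ : ℝ) : Prop :=
  ∃ κ₁ : ℝ, 0 < κ₁ ∧ ∃ e₀ : ℝ, 0 < e₀ ∧ ∀ K : ℕ, Bas S (fun J F A =>
    ∀ (V : Type) (z : F.Ω → V) (V' : Type) (z' : F.Ω → V'),
    Mx (fun J F => ptr F J) (vg x) κ₁ F A z → Mx (fun J F => ptr F J) (vg o) κ₁ F A z' →
    ∀ q pa, (jtR m c d kB oB TB b nB).P K e₀ J F A q →
    (paQ m c d b (fun l => sn l b) nH nV).P K e₀ J F A pa →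
    CH (Pool.Agent.H49.Ent.cond F.p A True) q (fun ω => (pa ω, (z ω, y₀ J F ω))) ≤
      CH (Pool.Agent.H49.Ent.cond F.p A True) q (fun ω => (pa ω, ((z ω, z' ω), y₀ J F ω))) +
        κ * J)

theorem SkD.sub {S' : PCl m} (hs : ∀ (τ : ℝ) (J : ℕ) (F : Fam m J) (A : F.Ω → Prop),
    S'.St τ J F A → S.St τ J F A) {c : ℕ → Fin m} {d n' : ℕ} {kB : Fin n' → Fin m}
    {oB : Fin n' → ℕ} {sn : ℕ → ℝ → ℝ} {TB : Fin n' → ℝ → ℝ} {nH nV : ℕ → ℝ}
    {nB : Fin n' → ℝ} {b x o κ : ℝ} (h : SkD S y₀ c d kB oB sn TB nH nV nB b x o κ) :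
    SkD S' y₀ c d kB oB sn TB nH nV nB b x o κ := by
  obtain ⟨k₁, hk, e, he, H⟩ := h
  exact ⟨k₁, hk, e, he, fun K => (H K).sub hs⟩

/-- A larger error. -/
theorem SkD.le {c : ℕ → Fin m} {d n' : ℕ} {kB : Fin n' → Fin m}
    {oB : Fin n' → ℕ} {sn : ℕ → ℝ → ℝ} {TB : Fin n' → ℝ → ℝ} {nH nV : ℕ → ℝ}
    {nB : Fin n' → ℝ} {b x o κ κ' : ℝ} (h : SkD S y₀ c d kB oB sn TB nH nV nB b x o κ)
    (hκ : κ ≤ κ') : SkD S y₀ c d kB oB sn TB nH nV nB b x o κ' := by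
  obtain ⟨k₁, hk, e, he, H⟩ := h
  refine ⟨k₁, hk, e, he, fun K => Bas.mono 0 (H K) ?_⟩
  intro J _ F A H V z V' z' hz hz' q pa hq hpa
  have hJ0 : (0 : ℝ) ≤ J := Nat.cast_nonneg J
  exact (H V z V' z' hz hz' q pa hq hpa).trans ((add_le_add_iff_left _).2
    (mul_le_mul_of_nonneg_right hκ hJ0))

section

variable {c : ℕ → Fin m} {d : ℕ} {s a b lam : ℝ} {wh : ℚ → ℝ} {sn : ℕ → ℝ → ℝ} {G : Set ℝ}
  {N lv₀ : ℕ → ℝ} {σ₁ : ℝ} {n n' : ℕ} {k : Fin n → Fin m} {od : Fin n → ℕ}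
  {tl : Fin n → ℚ → ℝ} {P : Fin n → ℚ → ℝ}
  {kB : Fin n' → Fin m} {oB : Fin n' → ℕ} {tB : Fin n' → ℚ → ℝ} {DB : Fin n' → ℝ}

/-- **The record at `o` sees nothing more** of the near jets of the second kind over the charts of
`w` than the record at `w`, given the near path, up to the defects. -/
theorem sk_fix (hsd : SdI c y₀)
    (h : VCh S (fun J F => ptr F J) (yG ((range d).image c) y₀) c d s a b wh sn G)
    (hlam : 0 < lam) (hE : EdJ wh sn d N lv₀ σ₁ a b lam G)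
    (hB : TgC S c d wh a b kB tB) (hD : BdB wh d lv₀ σ₁ a b lam oB tB DB) {θ₀ : ℚ → ℝ}
    {θ : ℚ → ℚ → ℝ} (hR : TRelS S (fun J F => ptr F J) (yG ((range d).image c) y₀) s
      (cdQ m c d wh sn N kB oB tB DB)
      (fun w o => jtQ m c d k od wh tl (fun i => P i o) w) a b lam θ₀ θ)
    {w o : ℚ} (hw : a < w) (hwo : w ≤ o) (ho : (o : ℝ) < b)
    (hl : (o : ℝ) < w + lam) {nH nV lv : ℕ → ℝ} {σ₀ φ : ℝ} {nB : Fin n' → ℝ}
    (hr : NrD wh sn d nH nV lv σ₀ φ w o) (hNV : ∀ l < d, nV l ≤ N l) (hNB : ∀ i, nB i ≤ DB i)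
    (hgap : ∀ x, wh w ≤ x → x ≤ wh o → ∃ v' ∈ G, |v' - x| ≤ φ)
    (hfl : ∀ i < d, ∀ x ∈ G, wh w ≤ x → x ≤ wh o → |(sn i x - x) - (sn i (wh o) - wh o)| ≤ 2 * φ)
    {x' : ℝ} (hx' : x' ∈ G) (hox' : (o : ℝ) + s ≤ x') :
    ∀ ε : ℝ, 0 < ε → ∃ κ : ℝ, 0 < κ ∧ ∃ e₀ : ℝ, 0 < e₀ ∧ ∀ K : ℕ, Bas S (fun J F A =>
      ∀ (V : Type) (z : F.Ω → V) (V' : Type) (z' : F.Ω → V'),
      Mx (fun J F => ptr F J) (vg ((w : ℝ) + s)) κ F A z →
      Mx (fun J F => ptr F J) (vg ((o : ℝ) + s)) κ F A z' →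
      ∀ q pa, (jtQ m c d kB oB wh tB nB w).P K e₀ J F A q →
      (paQ m c d (wh w) (fun l => sn l (wh w)) nH nV).P K e₀ J F A pa →
      CH (Pool.Agent.H49.Ent.cond F.p A True) q (fun ω => (pa ω, (z ω, y₀ J F ω))) ≤
        CH (Pool.Agent.H49.Ent.cond F.p A True) q (fun ω => (pa ω, ((z ω, z' ω), y₀ J F ω))) +
        ((θ₀ w - θ₀ o) +
            ∑ i ∈ range d, (sn i x' - sn i (wh o) + 8 * ((i : ℝ) + 1) * φ) * Real.log 2 + ε) * J) := by
  intro cc hcc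
  obtain ⟨ε, hε, hεc⟩ : ∃ ε : ℝ, 0 < ε ∧ 20 * ε = cc := ⟨cc / 20, by positivity, by ring⟩
  have hwo' : (w : ℝ) ≤ o := by exact_mod_cast hwo
  have oa : a < o := by linarith
  have wb : (w : ℝ) < b := by linarith
  have ob1 : (o : ℝ) + s < 1 := by linarith [h.b1]
  have gw := h.wg w hw wb
  have go := h.wg o oa ho
  have wo := h.wm w o hw hwo ho
  obtain ⟨C₀, htm⟩ := h.tm
  obtain ⟨u₂, rd, hrd, hch⟩ := h.ch.ch _ gw.1
  have hfp : ∀ (J : ℕ) (F : Fam m J), ∃ χ : PtT F → PtT F, ∀ ω, ptr F J ω = χ (ptr F J ω) :=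
    fun J F => ⟨fun x => x, fun _ => rfl⟩
  have hHt := hr.htN fun l hl => h.mn l hl w o hw hwo ho
  -- the numbers
  obtain ⟨k2, hk2, e2, he2, H2⟩ := hR.n₀ w hw wb ε hε
  obtain ⟨k3, hk3, e3, he3, H3⟩ := hR.n₀ o oa ho ε hε
  -- the near path and the jets
  obtain ⟨e4, he4, H4⟩ := (few_cdB (kB := kB) h hlam hE hD hw wb (nV := nV) (nB := nB) hr.φ0 hHt hNV
    hNB).mx h.pos ε hε
  -- the positions
  have q8 := FewC.up h.pos (f' := fun J F => ptr F J) (g' := vg ((w : ℝ) + s)) (y' := y₀)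
    (fun J F => ⟨fun x => x, fun _ => rfl⟩)
    (fun J F => vg_mono gw.2 (by linarith) J F) (fun J F => ⟨fun x => x, fun _ => rfl⟩)
    (fewC_jPos (f := fun J F => ptr F J) (y := y₀) htm h.pos hfp hsd.kn hch hr.φ0 hHt
      le_rfl)
  obtain ⟨e8, he8, H8⟩ := q8.mx h.pos ε hε
  have q9 := fewC_ht (f := fun J F => ptr F J) (y := y₀) htm h.pos h.ch hfp hsd.kn gw.1
    go.1 wo go.2 (by linarith) hr.φ0 hgap hfl (p := fun l => sn l (wh w)) (n := nH)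
    (fun i _ => by linarith [hr.φ0]) (fun i hi => by linarith [hr.h i hi, hr.lv0 i hi, hr.σ0])
  obtain ⟨e9, he9, H9⟩ := q9.mx h.pos ε hε
  have H10 := ful_y hsd h.pos h.ch hx' hox' hε
  -- the condition at the last window
  obtain ⟨e11, he11, H11⟩ := (h.up oa le_rfl ho (few_cd (kB := kB) h hE hD hw oa hwo le_rfl ho hl
    (by linarith) fun _ => le_rfl)).mx h.pos ε hε
  obtain ⟨e₀, he₀, l2, l3, l4, l8, l9, l11⟩ : ∃ e₀ : ℝ, 0 < e₀ ∧
      e₀ ≤ e2 ∧ e₀ ≤ e3 ∧ e₀ ≤ e4 ∧ e₀ ≤ e8 ∧ e₀ ≤ e9 ∧ e₀ ≤ e11 := by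
    refine ⟨min (min e2 (min e3 e4)) (min e8 (min e9 e11)),
      by positivity, ?_, ?_, ?_, ?_, ?_, ?_⟩ <;> simp
  obtain ⟨κ, hκ, m2, m3, m4⟩ : ∃ κ : ℝ, 0 < κ ∧ κ ≤ k2 ∧ κ ≤ k3 ∧ κ ≤ ε / 2 :=
    ⟨min k2 (min k3 (ε / 2)), by positivity, by simp, by simp, by simp⟩
  obtain ⟨K₁, M₁, X1⟩ := exs_cd (N := N) h hB oB DB hw wb e₀ he₀
  obtain ⟨K₂, M₂, X2⟩ := exs_cd (N := N) h hB oB DB oa ho e₀ he₀
  refine ⟨κ, hκ, e₀, he₀, fun K => ?_⟩
  obtain ⟨L, hL0, hL1, hL2⟩ : ∃ L : ℕ, K ≤ L ∧ K₁ ≤ L ∧ K₂ ≤ L :=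
    ⟨max K (max K₁ K₂), le_max_left _ _, (le_max_left _ _).trans (le_max_right _ _),
      (le_max_right _ _).trans (le_max_right _ _)⟩
  refine Bas.mono 0 ((((H2 L).and ((H3 L).and (H4 L))).and (H8 L)).and
    (((H9 L).and H10).and (((H11 L).and (pos_bas h.pos)).and (X1.and X2)))) ?_
  rintro J - F A ⟨⟨⟨H2, H3, H4⟩, H8⟩, ⟨H9, H10⟩, ⟨H11, hA⟩,
    ⟨e, he, -⟩, eo, heo, -⟩ V z Vo zo hz hzo u pa hu hpa
  have hcl := isLaw_cond F.isLaw hA
  have h0 := hcl.nonneg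
  have hJ0 : (0 : ℝ) ≤ J := Nat.cast_nonneg J
  have he := (cdQ m c d wh sn N kB oB tB DB w).mono hL1 le_rfl he
  have heo := (cdQ m c d wh sn N kB oB tB DB o).mono hL2 le_rfl heo
  have hu := (jtQ m c d kB oB wh tB nB w).mono hL0 le_rfl hu
  have hpa := (paQ m c d (wh w) (fun l => sn l (wh w)) nH nV).mono hL0 le_rfl hpa
  have hht := htO_P hpa
  -- the record at the last window
  have hZ : Mx (fun J F => ptr F J) (vg ((o : ℝ) + s)) κ F A (fun ω => (z ω, zo ω)) :=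
    hz.join hA ⟨fun x => x, fun _ => rfl⟩ (vg_mono (by linarith) (by linarith) J F) hzo
  have r2 := (abs_le.1 (H2 V z (hz.le' m2) e
    ((cdQ m c d wh sn N kB oB tB DB w).mono le_rfl l2 he))).2
  have r3 := (abs_le.1 (H3 _ _ (hZ.le' m3) eo
    ((cdQ m c d wh sn N kB oB tB DB o).mono le_rfl l3 heo))).1
  have r4 := H4 V z (hz.le' m4) e (fun ω => (pa ω, u ω))
    ((cdQ m c d wh sn N kB oB tB DB w).mono le_rfl l4 he)
    ⟨(paQ m c d _ _ nH nV).mono le_rfl l4 hpa, (jtQ m c d kB oB wh tB nB w).mono le_rfl l4 hu⟩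
  have r8 := H8 V z (hz.le' m4) (fun ω => htO (pa ω)) (fun ω => fun l : Fin d => F.X J ω (c l))
    ((htQ m c d _ _ nH).mono le_rfl l8 hht) (fun ω _ => rfl)
  have r9 := H9 _ _ (hZ.le' m4) (fun _ => ()) (fun ω => htO (pa ω)) (fun ω _ => rfl)
    ((htQ m c d _ _ nH).mono le_rfl l9 hht)
  have r10 := H10 _ _ hZ.1
  have r11 := H11 _ _ (hZ.le' m4) e eo ((cdQ m c d wh sn N kB oB tB DB w).mono le_rfl l11 he)
    ((cdQ m c d wh sn N kB oB tB DB o).mono le_rfl l11 heo)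
  have r9' : CH (Pool.Agent.H49.Ent.cond F.p A True) (fun ω => htO (pa ω))
      (fun ω => ((z ω, zo ω), y₀ J F ω)) ≤
      CH (Pool.Agent.H49.Ent.cond F.p A True) (fun ω => htO (pa ω))
        (fun ω => ((), ((z ω, zo ω), y₀ J F ω))) :=
    CH_mono_cond hcl.nonneg fun ω ω' _ _ hh => Prod.ext rfl hh
  have t1 : CH (Pool.Agent.H49.Ent.cond F.p A True) e
      (fun ω => (z ω, yG ((range d).image c) y₀ J F ω)) ≤ (θ₀ w + ε) * J := by linarith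
  have t2 : (θ₀ o - ε) * J ≤ CH (Pool.Agent.H49.Ent.cond F.p A True) eo
      (fun ω => ((z ω, zo ω), yG ((range d).image c) y₀ J F ω)) := by linarith
  have r4a : CH (Pool.Agent.H49.Ent.cond F.p A True) pa
      (fun ω => (e ω, (z ω, yG ((range d).image c) y₀ J F ω))) ≤ ε * J :=
    le_trans (CH_mono_left h0 fun ω ω' _ _ hh => by
      simp only [Prod.mk.injEq] at hh
      exact hh.1.1) r4
  have r4b : CH (Pool.Agent.H49.Ent.cond F.p A True) u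
      (fun ω => (e ω, (z ω, yG ((range d).image c) y₀ J F ω))) ≤ ε * J :=
    le_trans (CH_mono_left h0 fun ω ω' _ _ hh => by
      simp only [Prod.mk.injEq] at hh
      exact hh.1.2) r4
  have hεJ : 0 ≤ ε * J := by positivity
  have key := sk_ent h0 (q := Pool.Agent.H49.Ent.cond F.p A True) (u := u)
    (e := e) (eo := eo) (pa := pa) (hh := fun ω => htO (pa ω))
    (x := fun ω => fun l : Fin d => F.X J ω (c l)) (y := yG ((range d).image c) y₀ J F)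
    (w := y₀ J F)
    (z := z) (zo := zo) (k := ε * J)
    (fun ω ω' _ _ hh => congrArg htO hh) ?_ ?_ r4b r4a r8 r10
    (r9'.trans r9) t1 t2 r11
  · refine key.trans (le_of_sub_nonneg ?_)
    have s1 : (∑ i ∈ range d, (sn i x' - sn i (wh o) + 8 * ((i : ℝ) + 1) * φ) * Real.log 2) * J =
        (∑ i ∈ range d, (1 - nH i) * Real.log 2) * J -
        ∑ i ∈ range d, (1 - sn i x') * Real.log 2 * J +
        (∑ i ∈ range d, (nH i - sn i (wh o) + 8 * ((i : ℝ) + 1) * φ) * Real.log 2) * J := by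
      simp only [Finset.sum_mul]
      rw [← Finset.sum_sub_distrib, ← Finset.sum_add_distrib]
      refine Finset.sum_congr rfl fun i _ => ?_
      ring
    have s3 : cc * J = 20 * (ε * J) := by rw [← hεc]; ring
    generalize (∑ i ∈ range d, (sn i x' - sn i (wh o) + 8 * ((i : ℝ) + 1) * φ) * Real.log 2) = T at *
    generalize (∑ i ∈ range d, (1 - nH i) * Real.log 2) = T₁ at *
    generalize (∑ i ∈ range d, (1 - sn i x') * Real.log 2 * J) = T₂ at *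
    generalize (∑ i ∈ range d, (nH i - sn i (wh o) + 8 * ((i : ℝ) + 1) * φ) * Real.log 2) = T₃ at *
    have s4 : ((θ₀ w - θ₀ o) + T + cc) * J =
      θ₀ w * J - θ₀ o * J + T * J + cc * J := by ring
    have s6 : (T₁ + ε) * J = T₁ * J + ε * J := by ring
    have s7 : (T₃ + ε) * J = T₃ * J + ε * J := by ring
    have s8 : (θ₀ w + ε) * J = θ₀ w * J + ε * J := by ring
    have s9 : (θ₀ o - ε) * J = θ₀ o * J - ε * J := by ring
    rw [s4, s6, s7, s8, s9, s1, s3]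
    linarith
  · intro ω ω' _ _ hh
    have h1 := Prod.ext_iff.mp hh
    refine Prod.ext (funext fun i => ?_) h1.2
    show (if i ∈ (range d).image c then F.X J ω i else 0) =
      if i ∈ (range d).image c then F.X J ω' i else 0
    split_ifs with hi
    · obtain ⟨l, hl, rfl⟩ := mem_image.1 hi
      exact congrFun h1.1 ⟨l, mem_range.1 hl⟩
    · rfl
  · intro ω ω' _ _ hh
    have h1 := Prod.ext_iff.mp hh
    refine Prod.ext (funext fun l => ?_) h1.2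
    have h2 := congrFun h1.1 (c l)
    have h3 : (if c l ∈ (range d).image c then F.X J ω (c l) else 0) =
      if c l ∈ (range d).image c then F.X J ω' (c l) else 0 := h2
    rw [if_pos (mem_image_of_mem c (mem_range.2 l.2)),
      if_pos (mem_image_of_mem c (mem_range.2 l.2))] at h3
    exact h3

end

end Pool.RK28
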