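import Pool.Agent.H28.RK.Fix

/-!
# The near jets of the second kind: real windows

`SkI`: the statement at the indices. `sk_real`: from the indices to the real windows.
-/

set_option autoImplicit false

namespace Pool.RK28

open Finset Real MvPolynomial
open Pool.Agent.H49.Ent Pool.Agent.H32.Dense Pool.STK Pool.KA Pool.KSAT Pool.K2S Pool.PB Pool.S6C
  Pool.GEN Pool.RCD Pool.LA91 Pool.LP30 Pool.LPJ30 Pool.RJ28
open Pool.OWN83 (TwoRelS TRelS)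
open Pool.OWN68 (cl2_vg)
open Pool.RV28 (SdI yG swap_up swap_lo)

variable {m : ℕ} {S : PCl m} {γ : ∀ J : ℕ, Fam m J → Type}
  {y₀ : ∀ (J : ℕ) (F : Fam m J), F.Ω → γ J F}

/-- The statement at the indices: the charts at `wc`, the records at `zw` and `zo`. -/
def SkI (S : PCl m) (y₀ : ∀ (J : ℕ) (F : Fam m J), F.Ω → γ J F) (c : ℕ → Fin m) (d : ℕ)
    {n' : ℕ} (kB : Fin n' → Fin m) (oB : Fin n' → ℕ) (sn : ℕ → ℝ → ℝ) (TB : Fin n' → ℝ → ℝ)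
    (nH nV : ℕ → ℝ) (nB : Fin n' → ℝ) (wc zw zo κ : ℝ) : Prop :=
  ∀ ε : ℝ, 0 < ε → ∃ κ₁ : ℝ, 0 < κ₁ ∧ ∃ e₀ : ℝ, 0 < e₀ ∧ ∀ K : ℕ, Bas S (fun J F A =>
    ∀ (V : Type) (z : F.Ω → V) (V' : Type) (z' : F.Ω → V'),
    Mx (fun J F => ptr F J) (vg zw) κ₁ F A z → Mx (fun J F => ptr F J) (vg zo) κ₁ F A z' →
    ∀ q pa, (jtR m c d kB oB TB wc nB).P K e₀ J F A q →
    (paQ m c d wc (fun l => sn l wc) nH nV).P K e₀ J F A pa →
    CH (Pool.Agent.H49.Ent.cond F.p A True) q (fun ω => (pa ω, (z ω, y₀ J F ω))) ≤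
      CH (Pool.Agent.H49.Ent.cond F.p A True) q (fun ω => (pa ω, ((z ω, z' ω), y₀ J F ω))) +
        (κ + ε) * J)

section

variable {Ω U V P P' Z Z' X X' W : Type} [Fintype Ω] {q : Ω → ℝ}

/-- From the charts of one window to the ones of another, entropies. `u`, `v`: the jets; `pa`, `pb`:
the near paths; `x`, `x'`: the records at the real windows, `z`, `z'`: at the indices. -/
theorem sk_swap (h0 : ∀ ω, 0 ≤ q ω) {u : Ω → U} {v : Ω → V} {pa : Ω → P} {pb : Ω → P'}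
    {x : Ω → X} {x' : Ω → X'} {z : Ω → Z} {z' : Ω → Z'} {w : Ω → W} {k D : ℝ}
    (key : CH q v (fun ω => (pb ω, (z ω, w ω))) ≤ CH q v (fun ω => (pb ω, ((z ω, z' ω), w ω))) + D)
    (a1 : CH q pb (fun ω => (pa ω, (x ω, w ω))) ≤ k)
    (a2 : CH q pa (fun ω => (pb ω, (x ω, w ω))) ≤ k)
    (b1 : CH q u (fun ω => ((pb ω, v ω), (x ω, w ω))) ≤ k)
    (b2 : CH q v (fun ω => ((pa ω, u ω), (x ω, w ω))) ≤ k)
    (c1 : CH q z x ≤ k) (c2 : CH q x z' ≤ k) (c3 : CH q x' z' ≤ k) :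
    CH q u (fun ω => (pa ω, (x ω, w ω))) ≤
      CH q u (fun ω => (pa ω, ((x ω, x' ω), w ω))) + 8 * k + D := by
  -- from `u` over `pa`, `x` to `v` over `pb`, `z`
  have s1 := CH_le_add h0 u (fun ω => ((pb ω, v ω), z ω)) (fun ω => (pa ω, (x ω, w ω)))
  have s1a : CH q u (fun ω => (((pb ω, v ω), z ω), (pa ω, (x ω, w ω)))) ≤
      CH q u (fun ω => ((pb ω, v ω), (x ω, w ω))) := by
    refine CH_mono_cond h0 fun ω ω' _ _ h => ?_
    simp only [Prod.mk.injEq] at h ⊢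
    tauto
  -- the pair `(pb, v)`, `z` given `pa`, `x`
  have s2 := CH_subadd h0 (fun ω => (pb ω, v ω)) z (fun ω => (pa ω, (x ω, w ω)))
  have s2a : CH q z (fun ω => (pa ω, (x ω, w ω))) ≤ CH q z x :=
    CH_mono_cond h0 fun ω ω' _ _ h => by
      simp only [Prod.mk.injEq] at h
      exact h.2.1
  have s3 := CH_le_add h0 (fun ω => (pb ω, v ω)) pb (fun ω => (pa ω, (x ω, w ω)))
  have s3a : CH q (fun ω => (pb ω, v ω)) (fun ω => (pb ω, (pa ω, (x ω, w ω)))) ≤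
      CH q v (fun ω => (pb ω, (x ω, w ω))) := by
    have t1 := CH_subadd h0 pb v (fun ω => (pb ω, (pa ω, (x ω, w ω))))
    have t2 : CH q pb (fun ω => (pb ω, (pa ω, (x ω, w ω)))) = 0 :=
      CH_eq_zero h0 fun ω ω' _ _ h => (Prod.ext_iff.mp h).1
    have t3 : CH q v (fun ω => (pb ω, (pa ω, (x ω, w ω)))) ≤ CH q v (fun ω => (pb ω, (x ω, w ω))) := by
      refine CH_mono_cond h0 fun ω ω' _ _ h => ?_
      simp only [Prod.mk.injEq] at h ⊢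
      tauto
    linarith
  -- `v` given `pb`, `x`: from `z`
  have s4 : CH q v (fun ω => (pb ω, (x ω, w ω))) ≤ CH q v (fun ω => (pb ω, (z ω, w ω))) + k := by
    have t1 := CH_le_add h0 v z (fun ω => (pb ω, (x ω, w ω)))
    have t2 : CH q v (fun ω => (z ω, (pb ω, (x ω, w ω)))) ≤ CH q v (fun ω => (pb ω, (z ω, w ω))) := by
      refine CH_mono_cond h0 fun ω ω' _ _ h => ?_
      simp only [Prod.mk.injEq] at h ⊢
      tauto
    have t3 : CH q z (fun ω => (pb ω, (x ω, w ω))) ≤ CH q z x :=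
      CH_mono_cond h0 fun ω ω' _ _ h => by
        simp only [Prod.mk.injEq] at h
        exact h.2.1
    linarith
  -- from below: `v` over `pb`, `(z, z')` to `u` over `pa`, `(x, x')`
  have s5 := CH_le_add h0 v (fun ω => ((pa ω, u ω), (x ω, x' ω)))
    (fun ω => (pb ω, ((z ω, z' ω), w ω)))
  have s5a : CH q v (fun ω => (((pa ω, u ω), (x ω, x' ω)), (pb ω, ((z ω, z' ω), w ω)))) ≤
      CH q v (fun ω => ((pa ω, u ω), (x ω, w ω))) := by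
    refine CH_mono_cond h0 fun ω ω' _ _ h => ?_
    simp only [Prod.mk.injEq] at h ⊢
    tauto
  have s6 := CH_le_add h0 (fun ω => ((pa ω, u ω), (x ω, x' ω))) (fun ω => (x ω, x' ω))
    (fun ω => (pb ω, ((z ω, z' ω), w ω)))
  have s6a := CH_subadd h0 x x' (fun ω => (pb ω, ((z ω, z' ω), w ω)))
  have s6b : CH q x (fun ω => (pb ω, ((z ω, z' ω), w ω))) ≤ CH q x z' :=
    CH_mono_cond h0 fun ω ω' _ _ h => by
      simp only [Prod.mk.injEq] at h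
      exact h.2.1.2
  have s6c : CH q x' (fun ω => (pb ω, ((z ω, z' ω), w ω))) ≤ CH q x' z' :=
    CH_mono_cond h0 fun ω ω' _ _ h => by
      simp only [Prod.mk.injEq] at h
      exact h.2.1.2
  have s7 : CH q (fun ω => ((pa ω, u ω), (x ω, x' ω)))
      (fun ω => ((x ω, x' ω), (pb ω, ((z ω, z' ω), w ω)))) ≤
      CH q (fun ω => (pa ω, u ω)) (fun ω => (pb ω, ((x ω, x' ω), w ω))) := by
    have t1 := CH_subadd h0 (fun ω => (pa ω, u ω)) (fun ω => (x ω, x' ω))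
      (fun ω => ((x ω, x' ω), (pb ω, ((z ω, z' ω), w ω))))
    have t2 : CH q (fun ω => (x ω, x' ω)) (fun ω => ((x ω, x' ω), (pb ω, ((z ω, z' ω), w ω)))) =
        0 := CH_eq_zero h0 fun ω ω' _ _ h => (Prod.ext_iff.mp h).1
    have t3 : CH q (fun ω => (pa ω, u ω)) (fun ω => ((x ω, x' ω), (pb ω, ((z ω, z' ω), w ω)))) ≤
        CH q (fun ω => (pa ω, u ω)) (fun ω => (pb ω, ((x ω, x' ω), w ω))) := by
      refine CH_mono_cond h0 fun ω ω' _ _ h => ?_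
      simp only [Prod.mk.injEq] at h ⊢
      tauto
    linarith
  have s8 := CH_le_add h0 (fun ω => (pa ω, u ω)) pa (fun ω => (pb ω, ((x ω, x' ω), w ω)))
  have s8a : CH q pa (fun ω => (pb ω, ((x ω, x' ω), w ω))) ≤ CH q pa (fun ω => (pb ω, (x ω, w ω))) := by
    refine CH_mono_cond h0 fun ω ω' _ _ h => ?_
    simp only [Prod.mk.injEq] at h ⊢
    tauto
  have s8b : CH q (fun ω => (pa ω, u ω)) (fun ω => (pa ω, (pb ω, ((x ω, x' ω), w ω)))) ≤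
      CH q u (fun ω => (pa ω, ((x ω, x' ω), w ω))) := by
    have t1 := CH_subadd h0 pa u (fun ω => (pa ω, (pb ω, ((x ω, x' ω), w ω))))
    have t2 : CH q pa (fun ω => (pa ω, (pb ω, ((x ω, x' ω), w ω)))) = 0 :=
      CH_eq_zero h0 fun ω ω' _ _ h => (Prod.ext_iff.mp h).1
    have t3 : CH q u (fun ω => (pa ω, (pb ω, ((x ω, x' ω), w ω)))) ≤
        CH q u (fun ω => (pa ω, ((x ω, x' ω), w ω))) := by
      refine CH_mono_cond h0 fun ω ω' _ _ h => ?_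
      simp only [Prod.mk.injEq] at h ⊢
      tauto
    linarith
  linarith

end

section

variable {sn : ℕ → ℝ → ℝ} {d n n' : ℕ} {T : Fin n → ℝ → ℝ} {G : Set ℝ} {nH nV lv : ℕ → ℝ}
  {b x o wc vc oc E X Sg φ R κ₀ : ℝ}
  {od : Fin n → ℕ} {oB : Fin n' → ℕ} {TB : Fin n' → ℝ → ℝ} {nB : Fin n' → ℝ} {Ob : ℝ}

/-- **From the indices to the real windows.** -/
theorem sk_real {c : ℕ → Fin m} {kB : Fin n' → Fin m} {C₀ : ℝ}
    (hsd : SdI c y₀) (htm : TmC S C₀)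
    (hpos : ∀ (τ : ℝ) (J : ℕ) (F : Fam m J) (A : F.Ω → Prop), S.St τ J F A → 0 < Pe F.p A)
    (hW : ChG S c d sn G)
    (attB : ∀ i, ∀ w ∈ G, ∃ rk : ℝ, 0 ≤ rk ∧ Att S ((range d).image c) (kB i) w (TB i w) rk)
    (h : BoxJ sn d T od oB TB G nH nV lv nB b x x o wc vc oc E X Sg Ob φ R κ₀)
    {zw zo κ : ℝ} (hzw : zw ≤ x) (hzo : o ≤ zo) (hzo1 : zo ≤ 1)
    (hη : ∃ η, RNum S (fun J F => ptr F J) (vg zw) η)
    (hη' : ∃ η, RNum S (fun J F => ptr F J) (vg zo) η)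
    (hI : SkI S y₀ c d kB oB sn TB nH nV nB wc zw zo κ) {ε : ℝ} (hε : 0 < ε) :
    SkD S y₀ c d kB oB sn TB nH nV nB b x o (κ + ε) := by
  obtain ⟨δ, hδ, hδε⟩ : ∃ δ : ℝ, 0 < δ ∧ 9 * δ = ε := ⟨ε / 9, by positivity, by ring⟩
  have hb := h.bx
  obtain ⟨W, hWG, hWm, bW, wW, Wx⟩ := hb.mx
  have hfp : ∀ (J : ℕ) (F : Fam m J), ∃ χ : PtT F → PtT F, ∀ ω, ptr F J ω = χ (ptr F J ω) :=
    fun J F => ⟨fun x => x, fun _ => rfl⟩
  have nb := hb.nrB hWm bW Wx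
  have nw := hb.nrW hWm wW Wx
  have hi : HiW sn d lv (X / 2 / 2) G W := by
    have h1 := h.hi W hWm
    have h2 : X / 4 = X / 2 / 2 := by ring
    rwa [h2] at h1
  have hxo : x ≤ o := hb.hyo
  have hx1 : x ≤ 1 := hxo.trans (hzo.trans hzo1)
  obtain ⟨pp3, pp4⟩ := hb.pp hWm Wx
  have pp3' : ∀ l < d, nH l + X / 2 ≤ min (sn l wc) (sn l b) + (1 - W) ∧
      nV l + W + X / 2 ≤ min (sn l wc) (sn l b) + (1 - W) := fun l hl => by
    rw [min_comm]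
    exact pp3 l hl
  have pp4' : ∀ l < d, ∀ l' < l, nH l + X / 2 ≤ min (sn l wc) (sn l b) + lv l' ∧
      nV l + W + X / 2 ≤ min (sn l wc) (sn l b) + lv l' := fun l hl => by
    rw [min_comm]
    exact pp4 l hl
  -- up
  have up : ∀ {U U' : Type} {Q : Qt m U} {Q' : Qt m U'} {a : ℝ},
      FewC S (fun J F => ptr F J) (vg W) y₀ Q Q' a →
      FewC S (fun J F => ptr F J) (vg x) y₀ Q Q' a := fun h3 =>
    FewC.up hpos (fun J F => ⟨fun x => x, fun _ => rfl⟩) (fun J F => vg_mono Wx hx1 J F)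
      (fun J F => ⟨fun x => x, fun _ => rfl⟩) h3
  -- the jets of the second kind
  have q1 := up (fewC_jt (f := fun J F => ptr F J) (y := y₀) htm hpos
    hW hfp hsd.kn hWG nw hi (k := kB) (od := oB) (w₁ := wc) (w₂ := b) (p₁ := fun i => TB i wc)
    (p₂ := fun i => TB i b) (N₁ := nB) (N₂ := nB) (M := nB) (c₀ := 0) wW bW
    (fun i => le_rfl) (fun i => le_rfl) (fun i => by rw [sub_self, mul_zero])
    (fun i => by
      rw [min_comm]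
      exact (h.tb hWm Wx i).1) (fun i => by
      rw [min_comm]
      exact (h.tb hWm Wx i).2))
  have q2 := up (fewC_jt (f := fun J F => ptr F J) (y := y₀) htm hpos
    hW hfp hsd.kn hWG nb hi (k := kB) (od := oB) (w₁ := b) (w₂ := wc) (p₁ := fun i => TB i b)
    (p₂ := fun i => TB i wc) (N₁ := nB) (N₂ := nB) (M := nB) (c₀ := 0) bW wW
    (fun i => le_rfl) (fun i => le_rfl) (fun i => by rw [sub_self, mul_zero])
    (fun i => (h.tb hWm Wx i).1) (fun i => (h.tb hWm Wx i).2))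
  -- the near path
  have q3 := up (few_paC (f := fun J F => ptr F J) (y := y₀) htm hpos hW hfp hsd.kn
    hWG nb wW pp3 pp4).fewC
  have q5 := up (few_paC (f := fun J F => ptr F J) (y := y₀) htm hpos hW hfp hsd.kn
    hWG nw bW pp3' pp4').fewC
  obtain ⟨k0, hk0, e0, he0, H0⟩ := hI δ hδ
  obtain ⟨e1, he1, H1⟩ := q1.mx hpos δ hδ
  obtain ⟨e2, he2, H2⟩ := q2.mx hpos δ hδ
  obtain ⟨e3, he3, H3⟩ := q3.mx hpos δ hδ
  obtain ⟨e5, he5, H5⟩ := q5.mx hpos δ hδ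
  obtain ⟨e₀, he₀, l0, l1, l2, l3, l5⟩ : ∃ e₀ : ℝ, 0 < e₀ ∧ e₀ ≤ e0 ∧ e₀ ≤ e1 ∧ e₀ ≤ e2 ∧
      e₀ ≤ e3 ∧ e₀ ≤ e5 := by
    refine ⟨min (min e0 e1) (min e2 (min e3 e5)), by positivity, ?_, ?_, ?_, ?_, ?_⟩ <;> simp
  obtain ⟨κ₁, hκ₁, m1, m2⟩ : ∃ κ₁ : ℝ, 0 < κ₁ ∧ κ₁ ≤ k0 ∧ κ₁ ≤ δ / 4 :=
    ⟨min k0 (δ / 4), by positivity, by simp, by simp⟩
  have xB : Exs S (jtR m c d kB oB TB wc nB) := exs_pi fun i => by
    obtain ⟨rk, r1, r2⟩ := attB i wc hb.gw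
    exact exs_jet r1 r2
  obtain ⟨K₃, M₃, X3⟩ := exs_pa hW hb.gw nH nV e₀ he₀
  obtain ⟨K₄, M₄, X4⟩ := xB e₀ he₀
  obtain ⟨η, hη⟩ := hη
  obtain ⟨η', hη'⟩ := hη'
  refine ⟨κ₁, hκ₁, e₀, he₀, fun K => ?_⟩
  obtain ⟨L, hL0, hL3, hL4⟩ : ∃ L : ℕ, K ≤ L ∧ K₃ ≤ L ∧ K₄ ≤ L :=
    ⟨max K (max K₃ K₄), by simp, by simp, by simp⟩
  refine Bas.mono 0 ((((H0 L).and ((H1 L).and (H2 L))).and ((H3 L).and (H5 L))).and
    (((mx_ex hpos hη κ₁ hκ₁).and (mx_ex hpos hη' κ₁ hκ₁)).and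
      ((pos_bas hpos).and (X3.and X4)))) ?_
  rintro J - F A ⟨⟨⟨H0, H1, H2⟩, H3, H5⟩, ⟨⟨Vw, zq, hzq⟩, Vo, zr, hzr⟩, hA,
    ⟨pb, hpb, -⟩, qb, hqb, -⟩ V z V' z' hz hz' q pa hq hpa
  have hcl := isLaw_cond F.isLaw hA
  have hJ0 : (0 : ℝ) ≤ J := Nat.cast_nonneg J
  have hpb := (paQ m c d wc (fun l => sn l wc) nH nV).mono hL3 le_rfl hpb
  have hqb := (jtR m c d kB oB TB wc nB).mono hL4 le_rfl hqb
  have hpa := (paQ m c d b (fun l => sn l b) nH nV).mono hL0 le_rfl hpa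
  have hq := (jtR m c d kB oB TB b nB).mono hL0 le_rfl hq
  -- the records
  have hz3 := hz.le' (m2.trans (by linarith : δ / 4 ≤ δ / 2))
  have r0 := H0 _ zq _ zr (hzq.le' m1) (hzr.le' m1) qb pb
    ((jtR m c d kB oB TB wc nB).mono le_rfl l0 hqb) ((paQ m c d _ _ nH nV).mono le_rfl l0 hpb)
  have r1 := H1 _ z hz3 (fun ω => (pb ω, qb ω)) q
    ⟨(paQ m c d _ _ nH nV).mono le_rfl l1 hpb, (jtR m c d kB oB TB wc nB).mono le_rfl l1 hqb⟩
    ((jtR m c d kB oB TB b nB).mono le_rfl l1 hq)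
  have r2 := H2 _ z hz3 (fun ω => (pa ω, q ω)) qb
    ⟨(paQ m c d _ _ nH nV).mono le_rfl l2 hpa, (jtR m c d kB oB TB b nB).mono le_rfl l2 hq⟩
    ((jtR m c d kB oB TB wc nB).mono le_rfl l2 hqb)
  have r3 := H3 _ z hz3 pa pb ((paQ m c d _ _ nH nV).mono le_rfl l3 hpa)
    ((paQ m c d _ _ nH nV).mono le_rfl l3 hpb)
  have r5 := H5 _ z hz3 pb pa ((paQ m c d _ _ nH nV).mono le_rfl l5 hpb)
    ((paQ m c d _ _ nH nV).mono le_rfl l5 hpa)
  have r4 := hz.2 _ zq (cl2_vg (f := fun J F => ptr F J) hzw hx1 hzq.1)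
  have r6 := hzr.2 _ z (cl2_vg (f := fun J F => ptr F J) (hxo.trans hzo) hzo1 hz.1)
  have r7 := hzr.2 _ z' (cl2_vg (f := fun J F => ptr F J) hzo hzo1 hz'.1)
  simp only [mul_zero, zero_add] at r1 r2 r3 r5
  have hκJ : κ₁ * J ≤ δ * J := mul_le_mul_of_nonneg_right (by linarith) hJ0
  have key := sk_swap hcl.nonneg (u := q) (v := qb) (pa := pa) (pb := pb) (x := z) (x' := z')
    (z := zq) (z' := zr) (w := y₀ J F) (k := δ * J) (D := (κ + δ) * J) r0 r3 r5 r1 r2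
    (r4.trans hκJ) (r6.trans hκJ) (r7.trans hκJ)
  have e1 : (κ + ε) * J = (κ + δ) * J + 8 * (δ * J) := by
    rw [← hδε]
    ring
  rw [e1]
  linarith

end

end Pool.RK28
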